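import Pool.Agent.H510.EW.Dens
import Pool.Graph.R_pool_sql_team_seeded_c8625f6e.K4H6.Cov.Core
import Pool.Graph.R_pool_sql_team_seeded_c8625f6e.K4H6.Cov.Box2
import Pool.Graph.R_seed8.Y248.SW.KER
import Pool.Graph.R_seed8.Y655.SW.Ers0
import Pool.Graph.R_seed8.Y627.SW.ER1
import Pool.Graph.R_seed8.Y627.SW.MN
import Pool.Graph.R_seed8.Y240.SW.DF
import Pool.Graph.R_seed8.Y228.SW.EF
import Pool.Graph.R_seed8.Y274.SW.SM
import Pool.Graph.R_seed8.Y840.SW.MVB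

/-!
# Project Cov (K4H6 of the run c8625f6e): the proofs of all hypotheses
-/

set_option autoImplicit false

namespace Pool.Agent.H510.EW

open Filter Topology MeasureTheory Complex H370 Pool.Agent.Y745.SW

open Pool.Agent.K4H6.Cov (Ker kt Rt ker_t core Rt_zero full_val half_val)

theorem p_MVB' : P_MVB := Pool.Agent.Y840.SW.t_MVB
theorem p_KER : P_KER := Pool.Agent.Y248.SW.t_KER
theorem p_ERS : P_ERS := Pool.Agent.Y655.SW.ers_of dens_zeta Pool.Agent.Y627.SW.t_ER1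
theorem p_MN : P_MN := Pool.Agent.Y627.SW.t_MN
theorem p_DF : P_DF := Pool.Agent.Y240.SW.t_DF
theorem p_EF : P_EF := Pool.Agent.Y228.SW.t_EF
theorem p_SM : P_SM := Pool.Agent.Y274.SW.t_SM p_MVB' p_EF

/-- the main inequality, any kernel -/
theorem covK {kt : ℂ → ℂ} {R : ℝ → ℝ} (hk0 : Ker kt R) (hR02 : R 0 ≤ 2)
    (hRi : (∫ x in (0:ℝ)..1, x * R x) ≤ 1 / 2 - 1 / 50) {g : ℝ} (hg : 0 < g) (hg1 : g ≤ 1 / 1000) :
    ∃ δ τm N : ℝ, 0 < δ ∧ δ ≤ 1 / 10 ∧ 0 < τm ∧ 1 ≤ N ∧ ∀ τ : ℝ, 0 < τ → τ ≤ τm →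
      ∀ (c : ℕ → ℂ) (C0 : ℝ), (∀ n, ‖c n‖ ≤ ArithmeticFunction.vonMangoldt n) →
      ∀ᶠ T : ℝ in atTop, ∀ U1 U2 : ℝ, EFD c C0 T U1 U2 → ∀ S : Set ℝ, MeasurableSet S →
        S ⊆ Set.Icc (T + Real.log T) (2 * T - Real.log T) →
        (∀ t ∈ S, (((isoS U1 U2 (δ / Real.log T)).filter (fun s => |s.im - t| ≤ N / (τ * Real.log T))).card : ℝ) ≤
          g * (N / (Real.pi * τ))) →
        volume.real S * (2 - R 0 - 2 * ((∫ x in (0:ℝ)..1, x * R x) - ∫ x in (1/2:ℝ)..1, x * R x)) ≤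
          T * (2 * (∫ x in (1/2:ℝ)..1, x * R x) + 60 * g) := by
  have h := core good_zeta p_KER p_ERS p_MN p_DF p_EF p_SM p_MVB' hk0 hR02 hRi hg hg1
  exact h

/-- the main inequality, with the constants: the exceptional set has density at most `0.0623` -/
theorem cov0 : ∃ δ τm N g : ℝ, 0 < δ ∧ δ ≤ 1 / 10 ∧ 0 < τm ∧ 1 ≤ N ∧ 0 < g ∧ ∀ τ : ℝ, 0 < τ → τ ≤ τm →
      ∀ (c : ℕ → ℂ) (C0 : ℝ), (∀ n, ‖c n‖ ≤ ArithmeticFunction.vonMangoldt n) →
      ∀ᶠ T : ℝ in atTop, ∀ U1 U2 : ℝ, EFD c C0 T U1 U2 → ∀ S : Set ℝ, MeasurableSet S →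
        S ⊆ Set.Icc (T + Real.log T) (2 * T - Real.log T) →
        (∀ t ∈ S, (((isoS U1 U2 (δ / Real.log T)).filter (fun s => |s.im - t| ≤ N / (τ * Real.log T))).card : ℝ) ≤
          g * (N / (Real.pi * τ))) →
        volume.real S ≤ 0.06225 * T := by
  have hR0 : Rt 0 = 28710 / 17161 := Rt_zero
  have hfull := full_val
  have hhalf := half_val
  obtain ⟨δ, τm, N, h1, h2, h3, h4, h⟩ := covK ker_t (by rw [hR0]; norm_num) (by rw [hfull]; norm_num)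
    (g := 1 / 100000000) (by norm_num) (by norm_num)
  refine ⟨δ, τm, N, 1 / 100000000, h1, h2, h3, h4, by norm_num, fun τ hτ hτm c C0 hc => ?_⟩
  filter_upwards [h τ hτ hτm c C0 hc, eventually_ge_atTop 0] with T hT hT0 U1 U2 hefd S hS hSI hcount
  have h5 := hT U1 U2 hefd S hS hSI hcount
  rw [hR0, hfull, hhalf] at h5
  have h6 : volume.real S * 0.14834 ≤ volume.real S * (2 - 28710 / 17161 -
      2 * ((1143947 / 617796 + 28517 / 3088980 - 28710 / 17161) / 2 - 28517 / 3088980 / 2)) :=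
    mul_le_mul_of_nonneg_left (by norm_num) measureReal_nonneg
  have h7 : T * (2 * (28517 / 3088980 / 2) + 60 * (1 / 100000000)) ≤ T * 0.009234 :=
    mul_le_mul_of_nonneg_left (by norm_num) hT0
  have h8 : volume.real S * 0.14834 ≤ T * 0.009234 := (h6.trans h5).trans h7
  norm_num at h8 ⊢
  linarith

end Pool.Agent.H510.EW
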