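import Pool.Agent.H510.EW.Cov
import Pool.Graph.R_pool_sql_team_seeded_3997aac3.Q98.UM.Lem2

/-!
# Coverage of the critical line by simple zeros: final form
-/

set_option autoImplicit false

namespace Pool.Agent.H510.EW

open Filter Topology MeasureTheory Complex H370 Pool.Agent.Y745.SW

/-- the `γ` with `|γ - t| ≤ r` for which `1/2 + iγ` is a simple zero of zeta at distance at least `d` from every other zero -/
def SimpleNear (d r t : ℝ) : Set ℝ :=
  {γ : ℝ | |γ - t| ≤ r ∧ riemannZeta (1 / 2 + γ * I) = 0 ∧ deriv riemannZeta (1 / 2 + γ * I) ≠ 0 ∧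
    ∀ ρ : ℂ, riemannZeta ρ = 0 → ρ ≠ 1 / 2 + γ * I → d ≤ ‖ρ - (1 / 2 + γ * I)‖}

lemma iso_all' {U1 U2 d : ℝ} {s : ℂ} (hU : 1 ≤ U1) (hd : d ≤ 1) (h1 : U1 + 1 ≤ s.im) (h2 : s.im + 1 ≤ U2)
    (h : ∀ s' ∈ Zf riemannZeta U1 U2, s' ≠ s → d ≤ ‖s - s'‖) :
    ∀ s' : ℂ, riemannZeta s' = 0 → s' ≠ s → d ≤ ‖s' - s‖ := by
  intro s' h0 hne
  rw [norm_sub_rev]
  by_cases him : |s.im - s'.im| < 1
  · have him' := abs_lt.1 him
    have hs1 : 1 ≤ s'.im := by linarith
    refine h s' ?_ hne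
    rw [mem_Zf good_zeta hU]
    refine ⟨?_, ?_, by linarith, by linarith, h0⟩
    · by_contra hc
      exact good_zeta.nzl s' (not_lt.1 hc) hs1 h0
    · by_contra hc
      exact good_zeta.nzr s' (not_lt.1 hc) hs1 h0
  · have h4 := Complex.abs_im_le_norm (s - s')
    rw [Complex.sub_im] at h4
    linarith [not_lt.1 him]

lemma SimpleNear_finite {d r t : ℝ} (ht : 1 < t - r) : (SimpleNear d r t).Finite := by
  classical
  refine Set.Finite.subset (((Zf riemannZeta 1 (t + r)).image Complex.im).finite_toSet) fun γ hγ => ?_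
  obtain ⟨h1, h2, -, -⟩ := hγ
  have h1' := abs_le.1 h1
  rw [Finset.coe_image, Set.mem_image]
  refine ⟨1 / 2 + γ * I, ?_, by simp⟩
  rw [Finset.mem_coe, mem_Zf good_zeta le_rfl]
  have e1 : (1 / 2 + γ * I : ℂ).re = 1 / 2 := by simp
  have e2 : (1 / 2 + γ * I : ℂ).im = γ := by simp
  refine ⟨?_, ?_, ?_, ?_, h2⟩
  · rw [e1]; norm_num
  · rw [e1]; norm_num
  · rw [e2]; linarith
  · rw [e2]; linarith

open Classical in
/-- the count of the library is at most the number of these zeros -/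
lemma card_le_near {U1 U2 d r t T : ℝ} (hU : 1 ≤ U1) (hd : d ≤ 1) (h1 : U1 + 1 ≤ t - r) (h2 : t + r + 1 ≤ U2) :
    (((isoS U1 U2 d).filter (fun s => |s.im - t| ≤ r)).card : ℝ) ≤ ((SimpleNear d r t).ncard : ℝ) := by
  have hsub : (((isoS U1 U2 d).filter (fun s => |s.im - t| ≤ r)).image Complex.im : Set ℝ) ⊆ SimpleNear d r t := by
    intro γ hγ
    rw [Finset.coe_image, Set.mem_image] at hγ
    obtain ⟨s, hs, rfl⟩ := hγ
    rw [Finset.mem_coe, Finset.mem_filter] at hs
    obtain ⟨h3, h4⟩ := hs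
    unfold isoS at h3
    rw [Finset.mem_filter, mem_Zf good_zeta hU] at h3
    obtain ⟨⟨a1, a2, a3, a4, a5⟩, h5, h6, h7⟩ := h3
    have h4' := abs_le.1 h4
    have es : (1 / 2 + s.im * I : ℂ) = s := by
      apply Complex.ext
      · simp [h5]
      · simp
    refine ⟨h4, ?_, ?_, ?_⟩
    · rw [es]; exact a5
    · rw [es]; exact Pool.Agent.Q98.UM.deriv_ne h5 h6
    · rw [es]
      exact iso_all' hU hd (by linarith) (by linarith) h7
  have hcard : ((isoS U1 U2 d).filter (fun s => |s.im - t| ≤ r)).card =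
      (((isoS U1 U2 d).filter (fun s => |s.im - t| ≤ r)).image Complex.im).card := by
    rw [Finset.card_image_of_injOn]
    intro s hs s' hs' h
    rw [Finset.mem_coe, Finset.mem_filter] at hs hs'
    have k1 := hs.1
    have k2 := hs'.1
    unfold isoS at k1 k2
    rw [Finset.mem_filter] at k1 k2
    exact Complex.ext (by rw [k1.2.1, k2.2.1]) h
  rw [hcard, ← Set.ncard_coe_finset]
  exact_mod_cast Set.ncard_le_ncard hsub (SimpleNear_finite (by linarith))

open Classical in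
lemma count_meas (S : Finset ℂ) (r : ℝ) : Measurable fun t : ℝ => ((S.filter (fun s => |s.im - t| ≤ r)).card : ℝ) := by
  have h : (fun t : ℝ => ((S.filter (fun s => |s.im - t| ≤ r)).card : ℝ)) =
      fun t : ℝ => ∑ s ∈ S, ({t : ℝ | |s.im - t| ≤ r}.indicator (fun _ => (1 : ℝ)) t) := by
    funext t
    rw [Finset.card_filter]
    push_cast
    refine Finset.sum_congr rfl fun s _ => ?_
    by_cases hs : |s.im - t| ≤ r
    · rw [if_pos hs, Set.indicator_of_mem (show t ∈ {t : ℝ | |s.im - t| ≤ r} from hs)]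
    · rw [if_neg hs, Set.indicator_of_notMem (show t ∉ {t : ℝ | |s.im - t| ≤ r} from hs)]
  rw [h]
  refine Finset.measurable_sum _ fun s _ => measurable_const.indicator ?_
  exact measurableSet_le (by fun_prop) measurable_const

/-- **coverage**: for all but `6.23` per cent of the heights `t` the window of `G` mean spacings on both sides of `t` contains
at least `g G` simple zeros of Hardy's function -/
theorem coverage : ∃ g d G₀ : ℝ, 0 < g ∧ 0 < d ∧ 0 < G₀ ∧ ∀ G : ℝ, G₀ ≤ G → ∀ᶠ T : ℝ in atTop,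
    volume.real {t : ℝ | t ∈ Set.Icc T (2 * T) ∧
      ((SimpleNear (d / Real.log T) (G * (2 * Real.pi / Real.log T)) t).ncard : ℝ) < g * G} ≤ 0.0623 * T := by
  classical
  obtain ⟨δ, τm, N, g, hδ, hδ1, hτm, hN, hg, h⟩ := cov0
  obtain ⟨cc, hcc, C0, T0, hC0, hT0, hef⟩ := explicit_formula good_zeta
  have hpi := Real.pi_pos
  have hN0 : 0 < N := by linarith
  refine ⟨2 * g, δ, N / (2 * Real.pi * τm), by positivity, hδ, by positivity, fun G hG => ?_⟩
  have hG0 : 0 < G := lt_of_lt_of_le (by positivity) hG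
  obtain ⟨τ, hτd⟩ : ∃ τ : ℝ, τ = N / (2 * Real.pi * G) := ⟨_, rfl⟩
  have hτ0 : 0 < τ := by rw [hτd]; positivity
  have hττ : τ ≤ τm := by
    rw [hτd, div_le_iff₀ (by positivity)]
    rw [div_le_iff₀ (by positivity)] at hG
    linarith
  have hlog := Real.tendsto_log_atTop
  have hlo := Real.isLittleO_log_id_atTop.def (c := 1 / 100000) (by norm_num)
  filter_upwards [h τ hτ0 hττ cc C0 hcc, eventually_ge_atTop T0, eventually_ge_atTop 1, hlog.eventually_ge_atTop 10,
    hlog.eventually_ge_atTop (G * (2 * Real.pi)), hlo] with T hT hTT hT1 hL hLG hlo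
  rw [Real.norm_eq_abs, Real.norm_eq_abs, id, abs_of_pos (by linarith : 0 < T)] at hlo
  have hlo' : Real.log T ≤ 1 / 100000 * T := (le_abs_self _).trans hlo
  obtain ⟨U1, U2, hU1, hU1', hU2, hU2', heft⟩ := hef T hTT
  have hefd : EFD cc C0 T U1 U2 := ⟨hcc, hU1, hU1', hU2, hU2', heft⟩
  obtain ⟨L, hLd⟩ : ∃ L : ℝ, L = Real.log T := ⟨_, rfl⟩
  rw [← hLd] at hT hL hLG hlo' ⊢
  have hL0 : 0 < L := by linarith
  obtain ⟨r, hr⟩ : ∃ r : ℝ, r = N / (τ * L) := ⟨_, rfl⟩
  have hr2 : G * (2 * Real.pi / L) = r := by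
    rw [hr, hτd]
    field_simp
  have hM : g * (N / (Real.pi * τ)) = 2 * g * G := by
    rw [hτd]
    field_simp
  have hr0 : 0 < r := by rw [hr]; positivity
  have hr1 : r ≤ 1 := by
    rw [← hr2, ← mul_div_assoc, div_le_one hL0]
    exact hLG
  obtain ⟨S, hS⟩ : ∃ S : Set ℝ, S = Set.Icc (T + L) (2 * T - L) ∩
      {t : ℝ | (((isoS U1 U2 (δ / L)).filter (fun s => |s.im - t| ≤ r)).card : ℝ) ≤ 2 * g * G} := ⟨_, rfl⟩
  have hSm : MeasurableSet S := by
    rw [hS]
    exact measurableSet_Icc.inter (measurableSet_le (count_meas _ _) measurable_const)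
  have h1 := hT U1 U2 hefd S hSm (by rw [hS]; exact Set.inter_subset_left) (fun t ht => by
    rw [hS] at ht
    rw [hM, ← hr]
    exact ht.2)
  rw [hr2]
  have hsub : {t : ℝ | t ∈ Set.Icc T (2 * T) ∧ ((SimpleNear (δ / L) r t).ncard : ℝ) < 2 * g * G} ⊆
      S ∪ (Set.Icc T (T + L) ∪ Set.Icc (2 * T - L) (2 * T)) := by
    rintro t ⟨ht, hc⟩
    by_cases h2 : t < T + L
    · exact Or.inr (Or.inl ⟨ht.1, h2.le⟩)
    by_cases h3 : 2 * T - L < t
    · exact Or.inr (Or.inr ⟨h3.le, ht.2⟩)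
    push Not at h2 h3
    refine Or.inl ?_
    rw [hS]
    refine ⟨⟨h2, h3⟩, ?_⟩
    refine (card_le_near (T := T) (by linarith) ?_ (by linarith) (by linarith)).trans hc.le
    rw [div_le_one hL0]
    linarith
  have hfin : volume (S ∪ (Set.Icc T (T + L) ∪ Set.Icc (2 * T - L) (2 * T))) ≠ ⊤ := by
    have : S ∪ (Set.Icc T (T + L) ∪ Set.Icc (2 * T - L) (2 * T)) ⊆ Set.Icc (T - L) (2 * T + L) := by
      rintro t (ht | ht | ht)
      · rw [hS] at ht
        exact ⟨by linarith [ht.1.1], by linarith [ht.1.2]⟩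
      · exact ⟨by linarith [ht.1], by linarith [ht.2]⟩
      · exact ⟨by linarith [ht.1], by linarith [ht.2]⟩
    exact ne_top_of_le_ne_top isCompact_Icc.measure_ne_top (measure_mono this)
  refine (measureReal_mono hsub hfin).trans ?_
  refine (measureReal_union_le _ _).trans ?_
  have h4 := measureReal_union_le (μ := volume) (Set.Icc T (T + L)) (Set.Icc (2 * T - L) (2 * T))
  rw [Real.volume_real_Icc_of_le (by linarith), Real.volume_real_Icc_of_le (by linarith)] at h4
  norm_num at h1 h4 ⊢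
  linarith

end Pool.Agent.H510.EW
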