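import Pool.Graph.R_seed8.H370R2.DirGood
import Pool.Graph.R_pool_sql_team_seeded_3997aac3.Q97.UM.Base6

/-!
# Selberg's density theorem for the zeta function gives bounded exponential moments

The proof of `dens_of` of the module N802/LX/DensChi of the library, for a general rate.
-/

set_option autoImplicit false

namespace Pool.Agent.H510.EW

open Filter Topology MeasureTheory Complex
open H370 (Zf zset mult mem_Zf GoodL zz zz_im)

/-- the zeros on both sides -/
lemma dens_both {F : ℂ → ℂ} (hF : GoodL F) {A c T0 : ℝ} (hT0 : 10 ≤ T0)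
    (h : ∀ T : ℝ, T0 ≤ T → ∀ δ : ℝ, 0 ≤ δ → ∀ Z : Finset ℂ,
      (∀ z ∈ Z, 1 / 2 + δ ≤ z.re ∧ z.re < 1 ∧ T < z.im ∧ z.im ≤ 2 * T) →
      ∑ z ∈ Z, (mult F z : ℝ) ≤ A * (T * Real.log T * Real.exp (-(c * δ * Real.log T))))
    {T : ℝ} (hT : T0 ≤ T) {δ : ℝ} (hδ : 0 ≤ δ) (Z : Finset ℂ)
    (hZ : ∀ z ∈ Z, z ∈ zset F T (2 * T) ∧ δ ≤ |z.re - 1 / 2|) :
    ∑ z ∈ Z, (mult F z : ℝ) ≤
      2 * A * (T * Real.log T * Real.exp (-(c * δ * Real.log T))) := by
  classical
  have hinj : Function.Injective fun z : ℂ => 1 - (starRingEnd ℂ) z := by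
    intro z w hzw
    simp only at hzw
    have h1 : (starRingEnd ℂ) z = (starRingEnd ℂ) w := by linear_combination -hzw
    exact (starRingEnd ℂ).injective h1
  have h1 := h T hT δ hδ (Z.filter fun z => 1 / 2 ≤ z.re) (by
    intro z hz
    obtain ⟨c1, c2⟩ := Finset.mem_filter.mp hz
    obtain ⟨⟨d1, d2, d3, d4, d5⟩, d6⟩ := hZ z c1
    rw [abs_of_nonneg (by linarith)] at d6
    exact ⟨by linarith, d2, d3, d4⟩)
  have h2 := h T hT δ hδ ((Z.filter fun z => ¬ 1 / 2 ≤ z.re).image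
    fun z => 1 - (starRingEnd ℂ) z) (by
    intro z hz
    obtain ⟨w, hw, rfl⟩ := Finset.mem_image.mp hz
    obtain ⟨c1, c2⟩ := Finset.mem_filter.mp hw
    obtain ⟨⟨d1, d2, d3, d4, d5⟩, d6⟩ := hZ w c1
    push Not at c2
    rw [abs_of_neg (by linarith)] at d6
    simp only [Complex.sub_re, Complex.one_re, Complex.conj_re, Complex.sub_im, Complex.one_im,
      Complex.conj_im]
    exact ⟨by linarith, by linarith, by linarith, by linarith⟩)
  rw [Finset.sum_image fun x _ y _ hxy => hinj hxy] at h2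
  have h3 : ∑ z ∈ Z.filter (fun z => ¬ 1 / 2 ≤ z.re), (mult F (1 - (starRingEnd ℂ) z) : ℝ) =
      ∑ z ∈ Z.filter (fun z => ¬ 1 / 2 ≤ z.re), (mult F z : ℝ) := by
    refine Finset.sum_congr rfl fun z hz => ?_
    obtain ⟨c1, c2⟩ := Finset.mem_filter.mp hz
    obtain ⟨⟨d1, d2, d3, d4, d5⟩, d6⟩ := hZ z c1
    unfold mult analyticOrderNatAt
    rw [hF.symm z d1 d2 (by linarith)]
  rw [h3] at h2
  rw [← Finset.sum_filter_add_sum_filter_not Z (fun z => 1 / 2 ≤ z.re)]
  linarith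

/-- a density theorem of Selberg strength gives bounded exponential moments -/
lemma dens_of {F : ℂ → ℂ} (hF : GoodL F) {A c T0 : ℝ} (hA : 0 < A) (hc : 0 < c) (hT0 : 10 ≤ T0)
    (h : ∀ T : ℝ, T0 ≤ T → ∀ δ : ℝ, 0 ≤ δ → ∀ Z : Finset ℂ,
      (∀ z ∈ Z, 1 / 2 + δ ≤ z.re ∧ z.re < 1 ∧ T < z.im ∧ z.im ≤ 2 * T) →
      ∑ z ∈ Z, (mult F z : ℝ) ≤ A * (T * Real.log T * Real.exp (-(c * δ * Real.log T)))) :
    ∃ κ C T0 : ℝ, 0 < κ ∧ 0 < C ∧ 10 ≤ T0 ∧ ∀ T : ℝ, T0 ≤ T →
    ∑ s ∈ Zf F T (2 * T), (mult F s : ℝ) * Real.exp (κ * (|(zz s).im| * Real.log T)) ≤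
      C * (T * Real.log T) := by
  classical
  have hq : Real.exp (-(c / 2 : ℝ)) < 1 := Real.exp_lt_one_iff.2 (by linarith)
  refine ⟨c / 2, 2 * A * Real.exp (c / 2) / (1 - Real.exp (-(c / 2))), T0, by linarith,
    div_pos (by positivity) (by linarith), hT0, fun T hT => ?_⟩
  have hT10 : 10 ≤ T := hT0.trans hT
  have hTp : 0 < T := by linarith
  obtain ⟨L, hL⟩ : ∃ L : ℝ, L = Real.log T := ⟨_, rfl⟩
  have hL0 : 0 < L := by rw [hL]; exact Real.log_pos (by linarith)
  rw [← hL]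
  obtain ⟨S, hS⟩ : ∃ S : Finset ℂ, S = Zf F T (2 * T) := ⟨_, rfl⟩
  rw [← hS]
  have hmem : ∀ s ∈ S, s ∈ zset F T (2 * T) := fun s hs => by
    rwa [hS, mem_Zf hF (by linarith)] at hs
  obtain ⟨nn, hnn⟩ : ∃ nn : ℂ → ℕ, nn = fun s => ⌊|s.re - 1 / 2| * L⌋₊ := ⟨_, rfl⟩
  have hn1 : ∀ s, (nn s : ℝ) ≤ |s.re - 1 / 2| * L := fun s => by
    rw [hnn]; exact Nat.floor_le (by positivity)
  have hn2 : ∀ s, |s.re - 1 / 2| * L < (nn s : ℝ) + 1 := fun s => by
    rw [hnn]; exact Nat.lt_floor_add_one _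
  have hmaps : ∀ s ∈ S, nn s ∈ Finset.range (⌊L⌋₊ + 1) := by
    intro s hs
    obtain ⟨g1, g2, -, -, -⟩ := hmem s hs
    rw [Finset.mem_range, Nat.lt_succ_iff, hnn]
    refine Nat.floor_le_floor ?_
    have hx1 : |s.re - 1 / 2| ≤ 1 := by rw [abs_le]; constructor <;> linarith
    calc |s.re - 1 / 2| * L ≤ 1 * L := mul_le_mul_of_nonneg_right hx1 hL0.le
      _ = L := one_mul L
  have hcl : ∀ k : ℕ, ∑ s ∈ S.filter (fun s => nn s = k), (mult F s : ℝ) ≤
      2 * A * (T * L) * Real.exp (-(c * k)) := by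
    intro k
    have h1 := dens_both hF hT0 h hT (δ := k / L) (by positivity)
      (S.filter (fun s => nn s = k)) (fun z hz => by
        obtain ⟨c1, c2⟩ := Finset.mem_filter.mp hz
        refine ⟨hmem z c1, ?_⟩
        rw [div_le_iff₀ hL0]
        have := hn1 z
        rwa [c2] at this)
    refine h1.trans (le_of_eq ?_)
    rw [← hL]
    have e : c * ((k : ℝ) / L) * L = c * k := by field_simp
    rw [e]
    ring
  calc ∑ s ∈ S, (mult F s : ℝ) * Real.exp (c / 2 * (|(zz s).im| * L))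
      = ∑ k ∈ Finset.range (⌊L⌋₊ + 1), ∑ s ∈ S.filter (fun s => nn s = k),
          (mult F s : ℝ) * Real.exp (c / 2 * (|(zz s).im| * L)) :=
        (Finset.sum_fiberwise_of_maps_to hmaps _).symm
    _ ≤ ∑ k ∈ Finset.range (⌊L⌋₊ + 1), ∑ s ∈ S.filter (fun s => nn s = k),
          (mult F s : ℝ) * Real.exp (c / 2 * ((k : ℝ) + 1)) := by
        refine Finset.sum_le_sum fun k _ => Finset.sum_le_sum fun s hs => ?_
        obtain ⟨c1, c2⟩ := Finset.mem_filter.mp hs
        refine mul_le_mul_of_nonneg_left (Real.exp_le_exp.2 ?_) (Nat.cast_nonneg _)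
        rw [zz_im, abs_neg]
        have := hn2 s
        rw [c2] at this
        exact mul_le_mul_of_nonneg_left this.le (by linarith)
    _ ≤ ∑ k ∈ Finset.range (⌊L⌋₊ + 1),
          2 * A * (T * L) * Real.exp (c / 2) * Real.exp (-(c / 2)) ^ k := by
        refine Finset.sum_le_sum fun k _ => ?_
        rw [← Finset.sum_mul]
        calc (∑ s ∈ S.filter (fun s => nn s = k), (mult F s : ℝ)) *
              Real.exp (c / 2 * ((k : ℝ) + 1)) ≤
            (2 * A * (T * L) * Real.exp (-(c * k))) * Real.exp (c / 2 * ((k : ℝ) + 1)) :=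
              mul_le_mul_of_nonneg_right (hcl k) (Real.exp_pos _).le
          _ = 2 * A * (T * L) * Real.exp (c / 2) * Real.exp (-(c / 2)) ^ k := by
              rw [mul_assoc, ← Real.exp_add, mul_assoc (2 * A * (T * L)), ← Real.exp_nat_mul,
                ← Real.exp_add]
              congr 2
              ring
    _ = 2 * A * (T * L) * Real.exp (c / 2) *
          ∑ k ∈ Finset.range (⌊L⌋₊ + 1), Real.exp (-(c / 2)) ^ k := by
        rw [Finset.mul_sum]
    _ ≤ 2 * A * (T * L) * Real.exp (c / 2) * (1 - Real.exp (-(c / 2)))⁻¹ := by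
        apply mul_le_mul_of_nonneg_left _ (by positivity)
        have h5 := (summable_geometric_of_lt_one (Real.exp_pos _).le hq).sum_le_tsum
          (Finset.range (⌊L⌋₊ + 1)) (fun i _ => pow_nonneg (Real.exp_pos _).le i)
        rwa [tsum_geometric_of_lt_one (Real.exp_pos _).le hq] at h5
    _ = _ := by
        rw [div_eq_mul_inv]
        ring

open Pool.Agent.Q97.UM in
/-- **bounded exponential moments of the distances of the zeros from the critical line** -/
theorem dens_zeta : ∃ κ C T0 : ℝ, 0 < κ ∧ 0 < C ∧ 10 ≤ T0 ∧ ∀ T : ℝ, T0 ≤ T →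
    ∑ s ∈ Zf riemannZeta T (2 * T), (mult riemannZeta s : ℝ) *
        Real.exp (κ * (|(zz s).im| * Real.log T)) ≤ C * (T * Real.log T) := by
  classical
  obtain ⟨θ, c, C, hθ, -, hc, hC, h⟩ := b_DENS
  obtain ⟨T1, hT1⟩ := eventually_atTop.1 h
  refine dens_of H370.good_zeta (A := C + 1) (c := c) (T0 := max 10 T1) (by linarith) hc
    (le_max_left _ _) fun T hT δ hδ Z hZ => ?_
  have hT10 : 10 ≤ T := (le_max_left _ _).trans hT
  have hTT : T1 ≤ T := (le_max_right _ _).trans hT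
  have hL : 0 < Real.log T := Real.log_pos (by linarith)
  have h1 := hT1 T hTT 1 (by
    rw [Nat.cast_one]
    exact Real.one_le_rpow (by linarith) hθ.le) (fun _ => 1) (1 / 2 + δ) (by linarith)
  have e1 : N2 1 (fun _ => (1 : ℂ)) = 1 := by simp [N2]
  have e2 : ∀ t : ℝ, dp 1 (fun _ => (1 : ℂ)) t = 1 := fun t => by simp [dp]
  simp only [e1, e2, norm_one, one_pow, mul_one] at h1
  have e3 : T ^ (-(c * (1 / 2 + δ - 1 / 2))) = Real.exp (-(c * δ * Real.log T)) := by
    rw [Real.rpow_def_of_pos (by linarith)]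
    congr 1
    ring
  rw [e3] at h1
  have h2 : ∑ z ∈ Z, (mult riemannZeta z : ℝ) ≤
      ∑ s ∈ (Zf riemannZeta T (2 * T)).filter (fun s => 1 / 2 + δ ≤ s.re), (mz s : ℝ) := by
    rw [← Finset.sum_filter_add_sum_filter_not Z (fun z => riemannZeta z = 0)]
    have h3 : ∑ z ∈ Z.filter (fun z => ¬ riemannZeta z = 0), (mult riemannZeta z : ℝ) = 0 := by
      refine Finset.sum_eq_zero fun z hz => ?_
      have h4 := (Finset.mem_filter.1 hz).2
      have : mult riemannZeta z = 0 := by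
        unfold mult analyticOrderNatAt
        by_cases ha : AnalyticAt ℂ riemannZeta z
        · rw [ha.analyticOrderAt_eq_zero.2 h4]
          rfl
        · rw [analyticOrderAt_of_not_analyticAt ha]
          rfl
      rw [this, Nat.cast_zero]
    rw [h3, add_zero]
    refine Finset.sum_le_sum_of_subset_of_nonneg (fun z hz => ?_) fun _ _ _ => Nat.cast_nonneg _
    obtain ⟨c1, c2⟩ := Finset.mem_filter.1 hz
    obtain ⟨d1, d2, d3, d4⟩ := hZ z c1
    rw [Finset.mem_filter, mem_Zf H370.good_zeta (by linarith)]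
    exact ⟨⟨by linarith, d2, d3, d4, c2⟩, d1⟩
  refine (h2.trans h1).trans ?_
  have : 0 < Real.exp (-(c * δ * Real.log T)) := Real.exp_pos _
  have h5 : 0 ≤ T * Real.log T * Real.exp (-(c * δ * Real.log T)) := by positivity
  nlinarith

end Pool.Agent.H510.EW
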