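import Pool.Agent.H510.EW.Master
import Pool.Graph.R_pool_sql_team_seeded_3997aac3.Q97.UM.Rh
import Pool.Graph.R_pool_sql_team_seeded_3997aac3.Q98.UM.Lem2

/-!
# Zeros near exceptional values of zeta: final form
-/

set_option autoImplicit false

namespace Pool.Agent.H510.EW

open Filter Topology MeasureTheory Complex H370 Pool.Agent.Y745.SW Pool.Agent.Y745.LD

/-- the nontrivial zeros whose ordinates are at distance at most `r` from `t` -/
def zerosNear (t r : ℝ) : Set ℂ := {ρ | riemannZeta ρ = 0 ∧ 0 < ρ.re ∧ ρ.re < 1 ∧ |ρ.im - t| ≤ r}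

/-- the number of these zeros, counted with multiplicity -/
noncomputable def numNear (t r : ℝ) : ℕ := ∑ᶠ ρ ∈ zerosNear t r, analyticOrderNatAt riemannZeta ρ

/-- those which are simple, on the critical line, at distance at least `d` from every other zero, with
`A ≤ |ζ'(ρ)| ≤ B` -/
def goodNear (t r d A B : ℝ) : Set ℂ := {ρ | ρ ∈ zerosNear t r ∧ ρ.re = 1 / 2 ∧ deriv riemannZeta ρ ≠ 0 ∧
  (∀ ρ' : ℂ, riemannZeta ρ' = 0 → ρ' ≠ ρ → d ≤ ‖ρ' - ρ‖) ∧ A ≤ ‖deriv riemannZeta ρ‖ ∧ ‖deriv riemannZeta ρ‖ ≤ B}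

lemma pow_of_log {L x a b : ℝ} (hL : 1 < L) (hx : 0 < x) (h : |Real.log x - a * Real.log L| ≤ b * Real.log L) :
    L ^ (a - b) ≤ x ∧ x ≤ L ^ (a + b) := by
  have hL0 : 0 < L := by linarith
  rw [abs_le] at h
  constructor
  · rw [Real.rpow_def_of_pos hL0, ← Real.exp_log hx]
    simp only [Real.exp_log hx]
    rw [← Real.le_log_iff_exp_le hx]
    nlinarith [h.1]
  · rw [Real.rpow_def_of_pos hL0, ← Real.log_le_iff_le_exp hx]
    nlinarith [h.2]

open Classical in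
lemma zerosNear_eq {U1 U2 t r : ℝ} (hU : 1 ≤ U1) (h1 : U1 < t - r) (h2 : t + r ≤ U2) :
    zerosNear t r = ↑((Zf riemannZeta U1 U2).filter (fun s => |s.im - t| ≤ r)) := by
  ext ρ
  rw [Finset.mem_coe, Finset.mem_filter, mem_Zf good_zeta hU]
  unfold zerosNear zset
  simp only [Set.mem_setOf_eq]
  constructor
  · rintro ⟨a, b, c, d⟩
    have d' := abs_le.1 d
    exact ⟨⟨b, c, by linarith, by linarith, a⟩, d⟩
  · rintro ⟨⟨a, b, c, d, e⟩, f⟩
    exact ⟨e, a, b, f⟩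

open Classical in
lemma numNear_eq {U1 U2 t r : ℝ} (hU : 1 ≤ U1) (h1 : U1 < t - r) (h2 : t + r ≤ U2) :
    (numNear t r : ℝ) = nz U1 U2 (t - r) (t + r) := by
  unfold numNear
  rw [zerosNear_eq hU h1 h2, finsum_mem_coe_finset]
  unfold nz
  push_cast
  refine Finset.sum_congr ?_ fun _ _ => rfl
  ext s
  simp only [Finset.mem_filter]
  refine and_congr_right fun _ => ?_
  rw [abs_le]
  constructor
  · rintro ⟨a, b⟩
    exact ⟨by linarith, by linarith⟩
  · rintro ⟨a, b⟩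
    exact ⟨by linarith, by linarith⟩

/-- a zero in the strip is at distance at least `d` from all other zeros if it is so from the zeros in the strip near it -/
lemma iso_all {U1 U2 d : ℝ} {s : ℂ} (hU : 1 ≤ U1) (hd : d ≤ 1) (h1 : U1 + 1 ≤ s.im) (h2 : s.im + 1 ≤ U2) (h3 : 2 ≤ s.im)
    (h : ∀ s' ∈ Zf riemannZeta U1 U2, s' ≠ s → d ≤ ‖s - s'‖) :
    ∀ s' : ℂ, riemannZeta s' = 0 → s' ≠ s → d ≤ ‖s' - s‖ := by
  intro s' h0 hne
  rw [norm_sub_rev]
  by_cases him : |s.im - s'.im| < 1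
  · have him' := abs_lt.1 him
    have hs1 : 1 ≤ s'.im := by linarith
    refine h s' ?_ hne
    rw [mem_Zf good_zeta hU]
    refine ⟨?_, ?_, by linarith, by linarith, h0⟩
    · by_contra hc
      exact good_zeta.nzl s' (not_lt.1 hc) hs1 h0
    · by_contra hc
      exact good_zeta.nzr s' (not_lt.1 hc) hs1 h0
  · have h4 := Complex.abs_im_le_norm (s - s')
    rw [Complex.sub_im] at h4
    linarith [not_lt.1 him]

lemma zetaline_cont : Continuous fun t : ℝ => riemannZeta (1 / 2 + t * I) := by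
  have h1 : Continuous (fun t : ℝ => Pool.Agent.Q85.Mom.zx 0 t) := Pool.Agent.Q85.Mom.zx_cont (x := 0) (by norm_num)
  refine h1.congr fun t => ?_
  unfold Pool.Agent.Q85.Mom.zx
  simp

/-- the zeros on the line between two positive heights are a null set -/
lemma zeros_null {A B : ℝ} (hA : 1 ≤ A) :
    volume (Set.Ioc A B ∩ {t : ℝ | riemannZeta (1 / 2 + t * I) = 0}) = 0 := by
  classical
  refine Set.Finite.measure_zero (Set.Finite.subset
    (((Zf riemannZeta A B).image Complex.im).finite_toSet) fun t ht => ?_) _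
  rw [Finset.coe_image, Set.mem_image]
  refine ⟨1 / 2 + t * I, ?_, by simp⟩
  rw [Finset.mem_coe, mem_Zf good_zeta hA]
  have e1 : (1 / 2 + t * I : ℂ).re = 1 / 2 := by simp
  have e2 : (1 / 2 + t * I : ℂ).im = t := by simp
  refine ⟨?_, ?_, ?_, ?_, ht.2⟩
  · rw [e1]; norm_num
  · rw [e1]; norm_num
  · rw [e2]; exact ht.1.1
  · rw [e2]; exact ht.1.2

/-- one exponent -/
theorem ew_one (ε : ℝ) (hε : 0 < ε) (hε2 : ε ≤ 1 / 2) (hεc : ε ≤ 2 - cMTinv - 0.6725) : ∃ δ : ℝ, 0 < δ ∧ δ ≤ 1 / 10 ∧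
    ∀ κ : ℝ, ∃ e : ℝ, 0 < e ∧ ∀ᶠ T : ℝ in atTop, ∃ (r : ℝ) (E : Set ℝ),
      Real.log T ^ (e - 1) ≤ r ∧ r ≤ Real.log T ^ (ε - 1) ∧ MeasurableSet E ∧
      E ⊆ Set.Icc T (2 * T) ∧ T * Real.log T ^ (-κ ^ 2 - ε) ≤ volume.real E ∧ ∀ t ∈ E,
        Real.log T ^ (κ - ε) ≤ ‖riemannZeta (1 / 2 + t * I)‖ ∧ ‖riemannZeta (1 / 2 + t * I)‖ ≤ Real.log T ^ (κ + ε) ∧
        0.6725 * (r * Real.log T / Real.pi) ≤
          ((goodNear t r (δ / Real.log T) (Real.log T ^ (1 + κ - ε)) (Real.log T ^ (1 + κ + ε))).ncard : ℝ) ∧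
        0.6725 * (numNear t r : ℝ) ≤
          ((goodNear t r (δ / Real.log T) (Real.log T ^ (1 + κ - ε)) (Real.log T ^ (1 + κ + ε))).ncard : ℝ) := by
  classical
  obtain ⟨δ, hδ, hδ1, hew⟩ := ew ε hε hε2
  refine ⟨δ, hδ, hδ1, fun κ => ?_⟩
  obtain ⟨e, he, hev⟩ := hew κ
  refine ⟨e, he, ?_⟩
  filter_upwards [hev, eventually_ge_atTop (Real.exp 2)] with T hT hT2
  obtain ⟨U1, U2, r, E, hU1, hU1', hU2, hU2', hr1, hr2, hEm, hEs, hEv, hEt⟩ := hT
  have e2 : 3 ≤ Real.exp 2 := by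
    have := Real.add_one_le_exp (2 : ℝ)
    linarith
  have hT3 : 3 ≤ T := e2.trans hT2
  have hL : 2 ≤ Real.log T := by
    rw [Real.le_log_iff_exp_le (by linarith)]
    exact hT2
  obtain ⟨L, hLd⟩ : ∃ L : ℝ, L = Real.log T := ⟨_, rfl⟩
  have hLLd : LL T = Real.log L := by rw [hLd]; rfl
  rw [hLLd, ← hLd] at hEt
  rw [← hLd] at hr1 hr2 hEs hEv hL ⊢
  have hL0 : 0 < L := by linarith
  have hL1 : 1 < L := by linarith
  have hr0 : 0 < r := lt_of_lt_of_le (by positivity) hr1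
  have hrh : r ≤ 1 := hr2.trans (Real.rpow_le_one_of_one_le_of_nonpos hL1.le (by linarith))
  obtain ⟨N, hN⟩ : ∃ N : Set ℝ, N = {t : ℝ | riemannZeta (1 / 2 + t * I) = 0} := ⟨_, rfl⟩
  have hNm : MeasurableSet N := by
    rw [hN]
    exact (isClosed_singleton.preimage zetaline_cont).measurableSet
  refine ⟨r, E \ N, hr1, hr2, hEm.diff hNm, ?_, ?_, ?_⟩
  · intro t ht
    have := hEs ht.1
    exact ⟨by linarith [this.1], by linarith [this.2]⟩
  · refine hEv.trans (le_of_eq ?_)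
    unfold Measure.real
    congr 1
    have h0 : volume (E ∩ N) = 0 := by
      refine measure_mono_null (fun t ht => ?_) (zeros_null (A := 1) (B := 2 * T) le_rfl)
      have h5 := hEs ht.1
      have h6 := ht.2
      rw [hN] at h6
      exact ⟨⟨by linarith [h5.1], by linarith [h5.2]⟩, h6⟩
    rw [← measure_sdiff_add_inter E hNm, h0, add_zero]
  · rintro t ⟨htE, htN⟩
    have ht := hEs htE
    obtain ⟨hz, hc1, hc2⟩ := hEt t htE
    have hzpos : 0 < ‖riemannZeta (1 / 2 + t * I)‖ := by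
      rw [norm_pos_iff]
      intro h
      apply htN
      rw [hN]
      exact h
    obtain ⟨hz1, hz2⟩ := pow_of_log hL1 hzpos hz
    refine ⟨hz1, hz2, ?_⟩
    obtain ⟨S, hS⟩ : ∃ S : Finset ℂ, S = (((isoS U1 U2 (δ / L)).filter (fun s =>
            |Real.log ‖deriv riemannZeta s‖ - (1 + κ) * Real.log L| ≤ ε * Real.log L)).filter
              (fun s => |s.im - t| ≤ r)) := ⟨_, rfl⟩
    rw [← hS] at hc1 hc2
    have hsub : (S : Set ℂ) ⊆ goodNear t r (δ / L) (L ^ (1 + κ - ε)) (L ^ (1 + κ + ε)) := by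
      intro s hs
      rw [Finset.mem_coe, hS, Finset.mem_filter, Finset.mem_filter] at hs
      obtain ⟨⟨h1, h2⟩, h3⟩ := hs
      unfold isoS at h1
      rw [Finset.mem_filter, mem_Zf good_zeta (by linarith)] at h1
      obtain ⟨⟨a1, a2, a3, a4, a5⟩, h4, h5, h6⟩ := h1
      have h3' := abs_le.1 h3
      have hder : deriv riemannZeta s ≠ 0 := Pool.Agent.Q98.UM.deriv_ne h4 h5
      obtain ⟨k1, k2⟩ := pow_of_log hL1 (norm_pos_iff.2 hder) h2
      refine ⟨⟨a5, a1, a2, h3⟩, h4, hder, ?_, k1, k2⟩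
      refine iso_all (U1 := U1) (U2 := U2) (by linarith) ?_ (by linarith [ht.1]) (by linarith [ht.2])
        (by linarith [ht.1]) h6
      rw [div_le_one hL0]
      linarith
    have hfin : (goodNear t r (δ / L) (L ^ (1 + κ - ε)) (L ^ (1 + κ + ε))).Finite := by
      refine Set.Finite.subset (Finset.finite_toSet
        ((Zf riemannZeta U1 U2).filter (fun s => |s.im - t| ≤ r))) fun s hs => ?_
      rw [← zerosNear_eq (by linarith) (by linarith [ht.1]) (by linarith [ht.2])]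
      exact hs.1
    have hcard : (S.card : ℝ) ≤ ((goodNear t r (δ / L) (L ^ (1 + κ - ε)) (L ^ (1 + κ + ε))).ncard : ℝ) := by
      rw [← Set.ncard_coe_finset S]
      exact_mod_cast Set.ncard_le_ncard hsub hfin
    have hw : 0 ≤ r * L / Real.pi := by positivity
    have hp : (0.6725 : ℝ) ≤ 2 - cMTinv - ε := by linarith
    have hp1 : 2 - cMTinv - ε ≤ 1 := by
      have := cMTinv_gt_one
      linarith
    have hcc : 0.6725 * (r * L / Real.pi) ≤ (S.card : ℝ) := (mul_le_mul_of_nonneg_right hp hw).trans hc1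
    refine ⟨hcc.trans hcard, le_trans ?_ hcard⟩
    rw [numNear_eq (U1 := U1) (U2 := U2) (by linarith) (by linarith [ht.1]) (by linarith [ht.2])]
    have h10 : 0.6725 * nz U1 U2 (t - r) (t + r) ≤ (2 - cMTinv - ε) * nz U1 U2 (t - r) (t + r) := by
      apply mul_le_mul_of_nonneg_right hp
      unfold nz
      exact Finset.sum_nonneg fun _ _ => Nat.cast_nonneg _
    refine h10.trans ?_
    obtain ⟨p, hpd⟩ : ∃ p : ℝ, p = 2 - cMTinv - ε := ⟨_, rfl⟩
    rw [← hpd] at hc1 hc2 hp hp1 ⊢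
    obtain ⟨x, hx⟩ : ∃ x : ℝ, x = (S.card : ℝ) := ⟨_, rfl⟩
    obtain ⟨w, hwd⟩ : ∃ w : ℝ, w = r * L / Real.pi := ⟨_, rfl⟩
    rw [← hx, ← hwd] at hc1 hc2
    rw [← hx]
    have hp0 : 0 < p := by linarith
    calc p * nz U1 U2 (t - r) (t + r) ≤ p * (x + (1 - p) * w) := mul_le_mul_of_nonneg_left hc2 hp0.le
      _ = p * x + (1 - p) * (p * w) := by ring
      _ ≤ p * x + (1 - p) * x := by
        have : 0 ≤ 1 - p := by linarith
        nlinarith
      _ = x := by ring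

/-- **exceptional heights**: uniform in the exponent -/
theorem exceptional (ε : ℝ) (hε : 0 < ε) : ∃ δ : ℝ, 0 < δ ∧ ∀ K : ℝ, ∃ e T₀ : ℝ, 0 < e ∧ ∀ T κ : ℝ, T₀ ≤ T → |κ| ≤ K →
    ∃ (r : ℝ) (E : Set ℝ),
      Real.log T ^ (e - 1) ≤ r ∧ r ≤ Real.log T ^ (ε - 1) ∧ MeasurableSet E ∧
      E ⊆ Set.Icc T (2 * T) ∧ T * Real.log T ^ (-κ ^ 2 - ε) ≤ volume.real E ∧ ∀ t ∈ E,
        Real.log T ^ (κ - ε) ≤ ‖riemannZeta (1 / 2 + t * I)‖ ∧ ‖riemannZeta (1 / 2 + t * I)‖ ≤ Real.log T ^ (κ + ε) ∧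
        0.6725 * (r * Real.log T / Real.pi) ≤
          ((goodNear t r (δ / Real.log T) (Real.log T ^ (1 + κ - ε)) (Real.log T ^ (1 + κ + ε))).ncard : ℝ) ∧
        0.6725 * (numNear t r : ℝ) ≤
          ((goodNear t r (δ / Real.log T) (Real.log T ^ (1 + κ - ε)) (Real.log T ^ (1 + κ + ε))).ncard : ℝ) := by
  have hcM := Pool.Agent.Q97.UM.cMT_strict
  obtain ⟨ε', hε'⟩ : ∃ ε' : ℝ, ε' = min (ε / 4) 0.0000001 := ⟨_, rfl⟩
  have hε'0 : 0 < ε' := by rw [hε']; exact lt_min (by linarith) (by norm_num)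
  have hε'1 : ε' ≤ ε / 4 := by rw [hε']; exact min_le_left _ _
  have hε'2 : ε' ≤ 0.0000001 := by rw [hε']; exact min_le_right _ _
  obtain ⟨δ, hδ, -, hd⟩ := ew_one ε' hε'0 (by linarith) (by
    rw [show (0.0000001 : ℝ) = 1 / 10000000 by norm_num] at hε'2
    norm_num at hcM ⊢
    linarith)
  refine ⟨δ, hδ, fun K => ?_⟩
  -- a net
  obtain ⟨K', hK'⟩ : ∃ K' : ℝ, K' = max K 0 := ⟨_, rfl⟩
  have hK0 : 0 ≤ K' := by rw [hK']; exact le_max_right _ _
  have hKK : K ≤ K' := by rw [hK']; exact le_max_left _ _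
  obtain ⟨h, hh⟩ : ∃ h : ℝ, h = ε / (4 * (K' + 1)) := ⟨_, rfl⟩
  have hh0 : 0 < h := by rw [hh]; positivity
  have hhK : h * (K' + 1) = ε / 4 := by rw [hh]; field_simp
  obtain ⟨J, hJ⟩ := exists_nat_ge (2 * K' / h)
  have hJ' : 2 * K' ≤ J * h := by rwa [div_le_iff₀ hh0] at hJ
  choose e he0 hev using fun j : Fin (J + 1) => hd (-K' + j * h)
  have hne : (Finset.univ : Finset (Fin (J + 1))).Nonempty := Finset.univ_nonempty
  obtain ⟨e0, he0d⟩ : ∃ e0 : ℝ, e0 = Finset.univ.inf' hne e := ⟨_, rfl⟩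
  have he0p : 0 < e0 := by
    rw [he0d, Finset.lt_inf'_iff]
    exact fun j _ => he0 j
  have he0l : ∀ j, e0 ≤ e j := fun j => by
    rw [he0d]
    exact Finset.inf'_le _ (Finset.mem_univ j)
  have hall := (eventually_all.2 hev).and (eventually_ge_atTop (Real.exp 2))
  obtain ⟨T₀, hT₀⟩ := eventually_atTop.1 hall
  refine ⟨e0, T₀, he0p, fun T κ hT hκ => ?_⟩
  obtain ⟨hTj, hT2⟩ := hT₀ T hT
  have e2 : 3 ≤ Real.exp 2 := by
    have := Real.add_one_le_exp (2 : ℝ)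
    linarith
  have hT3 : 3 ≤ T := e2.trans hT2
  have hL : 2 ≤ Real.log T := by
    rw [Real.le_log_iff_exp_le (by linarith)]
    exact hT2
  obtain ⟨L, hLd⟩ : ∃ L : ℝ, L = Real.log T := ⟨_, rfl⟩
  simp only [← hLd] at hTj ⊢
  rw [← hLd] at hL
  have hL0 : 0 < L := by linarith
  have hL1 : 1 ≤ L := by linarith
  have hκ' := abs_le.1 (hκ.trans hKK)
  -- the nearest point of the net
  obtain ⟨j, hj⟩ : ∃ j : ℕ, j = ⌊(κ + K') / h⌋₊ := ⟨_, rfl⟩
  have hq0 : 0 ≤ (κ + K') / h := div_nonneg (by linarith) hh0.le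
  have hj1 : (j : ℝ) * h ≤ κ + K' := by
    rw [← le_div_iff₀ hh0, hj]
    exact Nat.floor_le hq0
  have hj2 : κ + K' < ((j : ℝ) + 1) * h := by
    rw [← div_lt_iff₀ hh0, hj]
    exact Nat.lt_floor_add_one _
  have hjJ : j < J + 1 := by
    have : (j : ℝ) ≤ J := by
      by_contra hcon
      push Not at hcon
      have h1 : (J : ℝ) * h < j * h := mul_lt_mul_of_pos_right hcon hh0
      linarith [hκ'.2]
    have : j ≤ J := by exact_mod_cast this
    omega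
  obtain ⟨r, E, hr1, hr2, hEm, hEs, hEv, hEt⟩ := hTj ⟨j, hjJ⟩
  obtain ⟨κ0, hκ0⟩ : ∃ κ0 : ℝ, κ0 = -K' + (j : ℝ) * h := ⟨_, rfl⟩
  rw [← hκ0] at hEv hEt
  have hd1 : κ0 ≤ κ := by linarith
  have hd2 : κ ≤ κ0 + h := by linarith
  have hh4 : h ≤ ε / 4 := by
    rw [← hhK]
    nlinarith
  refine ⟨r, E, ?_, ?_, hEm, hEs, ?_, fun t ht => ?_⟩
  · refine le_trans (Real.rpow_le_rpow_of_exponent_le hL1 ?_) hr1
    linarith [he0l ⟨j, hjJ⟩]
  · exact hr2.trans (Real.rpow_le_rpow_of_exponent_le hL1 (by linarith))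
  · refine le_trans (mul_le_mul_of_nonneg_left (Real.rpow_le_rpow_of_exponent_le hL1 ?_) (by linarith)) hEv
    have h1 : κ0 ^ 2 - κ ^ 2 ≤ h * (2 * K') := by
      have : κ0 ^ 2 - κ ^ 2 = (κ - κ0) * (-(κ0 + κ)) := by ring
      rw [this]
      have h3 : -(κ0 + κ) ≤ 2 * K' := by
        have : 0 ≤ (j : ℝ) * h := by positivity
        linarith [hκ'.1]
      have h4 : κ - κ0 ≤ h := by linarith
      calc (κ - κ0) * (-(κ0 + κ)) ≤ (κ - κ0) * (2 * K') := mul_le_mul_of_nonneg_left h3 (by linarith)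
        _ ≤ h * (2 * K') := mul_le_mul_of_nonneg_right h4 (by linarith)
    have h5 : h * (2 * K') ≤ ε / 2 := by nlinarith
    linarith
  · obtain ⟨a1, a2, a3, a4⟩ := hEt t ht
    have hsub : goodNear t r (δ / L) (L ^ (1 + κ0 - ε')) (L ^ (1 + κ0 + ε')) ⊆
        goodNear t r (δ / L) (L ^ (1 + κ - ε)) (L ^ (1 + κ + ε)) := by
      rintro s ⟨b1, b2, b3, b4, b5, b6⟩
      refine ⟨b1, b2, b3, b4, ?_, ?_⟩
      · exact le_trans (Real.rpow_le_rpow_of_exponent_le hL1 (by linarith)) b5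
      · exact b6.trans (Real.rpow_le_rpow_of_exponent_le hL1 (by linarith))
    have hfin : (goodNear t r (δ / L) (L ^ (1 + κ - ε)) (L ^ (1 + κ + ε))).Finite := by
      classical
      have htI := hEs ht
      have hrh : r ≤ 1 := by
        refine hr2.trans (Real.rpow_le_one_of_one_le_of_nonpos hL1 ?_)
        rw [show (0.0000001 : ℝ) = 1 / 10000000 by norm_num] at hε'2
        linarith
      refine Set.Finite.subset (Finset.finite_toSet
        ((Zf riemannZeta 1 (2 * T + 2)).filter (fun s => |s.im - t| ≤ r))) fun s hs => ?_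
      rw [← zerosNear_eq (by norm_num) (by linarith [htI.1]) (by linarith [htI.2])]
      exact hs.1
    have hcard : ((goodNear t r (δ / L) (L ^ (1 + κ0 - ε')) (L ^ (1 + κ0 + ε'))).ncard : ℝ) ≤
        ((goodNear t r (δ / L) (L ^ (1 + κ - ε)) (L ^ (1 + κ + ε))).ncard : ℝ) := by
      exact_mod_cast Set.ncard_le_ncard hsub hfin
    refine ⟨?_, ?_, a3.trans hcard, a4.trans hcard⟩
    · exact le_trans (Real.rpow_le_rpow_of_exponent_le hL1 (by linarith)) a1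
    · exact a2.trans (Real.rpow_le_rpow_of_exponent_le hL1 (by linarith))

end Pool.Agent.H510.EW
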