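import Pool.Agent.H510.EW.Dens
import Pool.Graph.R_pool_sql_team_seeded_1acbe0a2.Y220.LD.G1M0

set_option autoImplicit false

namespace Pool.Agent.H510.EW

open Filter Topology MeasureTheory Complex H370 Pool.Agent.Y745.SW Pool.Agent.Y745.LD

/-- the statement `P_G1M` of the library project LD: almost all heights have all their zeros near the critical line -/
theorem p_G1M : P_G1M := Pool.Agent.Y220.LD.g1m_of dens_zeta

end Pool.Agent.H510.EW
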