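import Pool.Graph.R_seed8.Y745.EW.Asm
import Pool.Graph.R_seed8.Y833.SW.Di
import Pool.Graph.R_seed8.Y655.SW.Trk
import Pool.Graph.R_seed8.Y627.SW.MN
import Pool.Graph.R_seed8.Y786.LD.KER2
import Pool.Graph.R_seed8.Y290.LD.DFU
import Pool.Graph.R_seed8.Y811.LD.VDQ
import Pool.Graph.R_seed8.Y210.LD.EFU
import Pool.Graph.R_seed8.Y732.LD.VSM
import Pool.Graph.R_seed8.Y745.LD.CNT2
import Pool.Graph.R_seed8.Y871.LD.COST
import Pool.Graph.R_seed8.Y954.LD.DERV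
import Pool.Graph.R_seed8.Y655.SW.Har
import Pool.Graph.R_seed8.Y448.LD.LOW
import Pool.Graph.R_seed8.Y363.LD.ZL2
import Pool.Graph.R_seed8.Y179.LD.Z1
import Pool.Graph.R_seed8.Y674.LD.Z3
import Pool.Graph.R_seed8.Y949.LD.G2M
import Pool.Graph.R_seed8.Y931.LD.VM1
import Pool.Graph.R_seed8.Y447.LD.VMR
import Pool.Graph.R_seed8.Y665.LD.VMS
import Pool.Graph.R_seed8.Y363.LD.PW
import Pool.Graph.R_seed8.Y840.SW.MVB
import Pool.Graph.R_seed8.Y288.EW.SEPC
import Pool.Graph.R_pool_sql_team_seeded_1acbe0a2.Y419.EW.LAYER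
import Pool.Graph.R_pool_sql_team_seeded_1acbe0a2.Y220.LD.G1M0

/-! The modules of projects EW, LD, SW of helper745 (library) that prove the hypotheses of `ew_core`. -/
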