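import Pool.Graph.R_seed8.Y745.LD.DefsB
import Pool.Graph.R_pool_sql_team_seeded_2aa45f1a.Q85.Mom.Disc

/-!
# Crude upper bound for the zeta function near the critical line (the statement `P_ZUP` of the library)
-/

set_option autoImplicit false

namespace Pool.Agent.H510.EW

open Filter Topology MeasureTheory Complex H370 Pool.Agent.Y745.SW Pool.Agent.Y745.LD
open Pool.Agent.Q85.Mom (AA AA_int AA_cont AA_nonneg zx circ avg_pow nrm zx_cont II)

lemma V_zero (c A T t : ℝ) : V 0 c A T t = 1 := by
  unfold V Qk tex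
  rw [Finset.sum_range_succ']
  simp

/-- mean square of zeta on the line -/
lemma msq (hZ3 : P_Z3) : ∀ᶠ T : ℝ in atTop,
    ∫ t in T..(2 * T), ‖riemannZeta (1 / 2 + t * I)‖ ^ 2 ≤ T * Real.log T ^ 2 := by
  obtain ⟨A0, h0⟩ := hZ3 0 (1 / 2) (by norm_num) (by norm_num)
  filter_upwards [h0 A0 le_rfl 1 one_pos] with T h
  simp only [V_zero, one_mul] at h
  refine h.trans (le_of_eq ?_)
  norm_num

lemma z_sq_int (a b : ℝ) : IntervalIntegrable (fun t : ℝ => ‖riemannZeta (1 / 2 + t * I)‖ ^ 2) volume a b := by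
  have h : Continuous (fun t : ℝ => ‖riemannZeta (1 / 2 + t * I)‖ ^ 2) := by
    have h1 : Continuous (fun t : ℝ => ‖zx 0 t‖ ^ 2) := (zx_cont (x := 0) (by norm_num)).norm.pow 2
    refine h1.congr fun t => ?_
    unfold zx
    simp
  exact h.intervalIntegrable _ _

lemma msq3 (hZ3 : P_Z3) : ∀ᶠ T : ℝ in atTop,
    ∫ t in (T / 2)..(4 * T), ‖riemannZeta (1 / 2 + t * I)‖ ^ 2 ≤ 12 * T * Real.log T ^ 2 := by
  have h1 := msq hZ3
  have h2 := (tendsto_id.atTop_div_const (two_pos : (0 : ℝ) < 2)).eventually h1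
  have h3 := (tendsto_id.const_mul_atTop (two_pos : (0 : ℝ) < 2)).eventually h1
  filter_upwards [h1, h2, h3, eventually_ge_atTop (Real.exp 2)] with T h1 h2 h3 hT
  simp only [id] at h2 h3
  have e2 : 3 ≤ Real.exp 2 := by
    have := Real.add_one_le_exp (2 : ℝ)
    linarith
  have hT0 : 3 ≤ T := e2.trans hT
  have hL : 2 ≤ Real.log T := by
    rw [Real.le_log_iff_exp_le (by linarith)]
    exact hT
  have hlog2 : Real.log 2 ≤ 1 := by
    have := Real.log_two_lt_d9
    linarith
  have hlog2p : 0 < Real.log 2 := Real.log_pos one_lt_two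
  have el1 : Real.log (T / 2) = Real.log T - Real.log 2 := Real.log_div (by linarith) two_ne_zero
  have el2 : Real.log (2 * T) = Real.log 2 + Real.log T := Real.log_mul two_ne_zero (by linarith)
  rw [show 2 * (T / 2) = T by ring, el1] at h2
  rw [show 2 * (2 * T) = 4 * T by ring, el2] at h3
  have ee : ∫ t in (T / 2)..(4 * T), ‖riemannZeta (1 / 2 + t * I)‖ ^ 2 =
      (∫ t in (T / 2)..T, ‖riemannZeta (1 / 2 + t * I)‖ ^ 2) +
      ((∫ t in T..(2 * T), ‖riemannZeta (1 / 2 + t * I)‖ ^ 2) +
      ∫ t in (2 * T)..(4 * T), ‖riemannZeta (1 / 2 + t * I)‖ ^ 2) := by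
    rw [intervalIntegral.integral_add_adjacent_intervals (z_sq_int T (2 * T)) (z_sq_int (2 * T) (4 * T)),
      intervalIntegral.integral_add_adjacent_intervals (z_sq_int (T / 2) T) (z_sq_int T (4 * T))]
  rw [ee]
  have k2 : T / 2 * (Real.log T - Real.log 2) ^ 2 ≤ T / 2 * Real.log T ^ 2 := by
    apply mul_le_mul_of_nonneg_left _ (by linarith)
    exact pow_le_pow_left₀ (by linarith) (by linarith) 2
  have k3 : 2 * T * (Real.log 2 + Real.log T) ^ 2 ≤ 2 * T * (2 * Real.log T) ^ 2 := by
    apply mul_le_mul_of_nonneg_left _ (by linarith)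
    exact pow_le_pow_left₀ (by linarith) (by linarith) 2
  have k4 : 0 ≤ T * Real.log T ^ 2 := by positivity
  have k5 : 2 * T * (2 * Real.log T) ^ 2 = 8 * (T * Real.log T ^ 2) := by ring
  have k6 : T / 2 * Real.log T ^ 2 = 1 / 2 * (T * Real.log T ^ 2) := by ring
  rw [show 12 * T * Real.log T ^ 2 = 12 * (T * Real.log T ^ 2) by ring]
  rw [k5] at k3
  rw [k6] at k2
  linarith

/-- values in a disc from the circle of twice the radius -/
lemma disc_le {t r lam : ℝ} (hr : 0 < r) (hr8 : r ≤ 1 / 8) (hlam : 0 ≤ lam) (hlr : lam * r ≤ 1) {w : ℂ}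
    (hw : ‖w - (1 / 2 + t * I)‖ ≤ r / 2) :
    ‖riemannZeta w‖ ^ 2 ≤ 4 * Real.exp 2 * AA lam r 2 t := by
  have h2pi : 0 < 2 * Real.pi := by positivity
  set c : ℂ := 1 / 2 + t * I with hc
  have hball : ∀ s ∈ Metric.closedBall c r, s ≠ 1 := by
    intro s hs h1
    rw [mem_closedBall_iff_norm, h1] at hs
    have h2 := (Complex.abs_re_le_norm (1 - c)).trans hs
    have h3 : (1 - c).re = 1 / 2 := by
      rw [hc]
      simp
      norm_num
    rw [h3, abs_of_pos (by norm_num)] at h2
    linarith
  have hd : DifferentiableOn ℂ riemannZeta (Metric.closedBall c r) := fun s hs =>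
    (differentiableAt_riemannZeta (hball s hs)).differentiableWithinAt
  have hwb : w ∈ Metric.ball c r := by
    rw [mem_ball_iff_norm]
    linarith
  have hC := hd.circleIntegral_sub_inv_smul hwb
  have hcont : Continuous fun θ : ℝ => riemannZeta (circleMap c r θ) := by
    rw [continuous_iff_continuousAt]
    intro θ
    have h1 : circleMap c r θ ∈ Metric.closedBall c r := circleMap_mem_closedBall c hr.le θ
    exact ContinuousAt.comp (f := fun θ : ℝ => circleMap c r θ) (g := riemannZeta)
      (differentiableAt_riemannZeta (hball _ h1)).continuousAt (continuous_circleMap c r).continuousAt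
  have h1 : ‖(2 * Real.pi * I : ℂ) • riemannZeta w‖ ≤
      2 * ∫ θ in (0 : ℝ)..2 * Real.pi, ‖riemannZeta (circleMap c r θ)‖ := by
    rw [← hC]
    unfold circleIntegral
    refine (intervalIntegral.norm_integral_le_integral_norm h2pi.le).trans ?_
    rw [← intervalIntegral.integral_const_mul]
    have hcirc : ∀ θ : ℝ, r / 2 ≤ ‖circleMap c r θ - w‖ := by
      intro θ
      have h1 : ‖circleMap c r θ - c‖ = r := by
        rw [circleMap_sub_center, norm_circleMap_zero, abs_of_pos hr]
      have h2 : ‖circleMap c r θ - c‖ ≤ ‖circleMap c r θ - w‖ + ‖w - c‖ := by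
        refine le_trans (le_of_eq ?_) (norm_add_le _ _)
        congr 1
        ring
      linarith
    have hne : ∀ θ : ℝ, circleMap c r θ - w ≠ 0 := fun θ h => by
      have := hcirc θ
      rw [h, norm_zero] at this
      linarith
    have hcont2 : Continuous fun θ : ℝ => ‖deriv (circleMap c r) θ • (circleMap c r θ - w)⁻¹ • riemannZeta (circleMap c r θ)‖ := by
      simp only [deriv_circleMap]
      have hcc : Continuous fun θ : ℝ => (circleMap c r θ - w)⁻¹ :=
        Continuous.inv₀ ((continuous_circleMap c r).sub continuous_const) hne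
      have hcd : Continuous fun θ : ℝ => (circleMap c r θ - w)⁻¹ • riemannZeta (circleMap c r θ) := hcc.smul hcont
      have hce : Continuous fun θ : ℝ => (circleMap 0 r θ * I) • (circleMap c r θ - w)⁻¹ • riemannZeta (circleMap c r θ) :=
        ((continuous_circleMap 0 r).mul continuous_const).smul hcd
      exact hce.norm
    refine intervalIntegral.integral_mono_on h2pi.le (hcont2.intervalIntegrable _ _)
      ((hcont.norm.const_mul 2).intervalIntegrable _ _) fun θ _ => ?_
    rw [norm_smul, norm_smul, deriv_circleMap, norm_mul, norm_I, mul_one, norm_circleMap_zero, abs_of_pos hr,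
      norm_inv, ← mul_assoc]
    apply mul_le_mul_of_nonneg_right _ (norm_nonneg _)
    have h3 := hcirc θ
    rw [← div_eq_mul_inv, div_le_iff₀ (by linarith)]
    linarith
  rw [norm_smul, norm_mul, norm_mul, norm_I, mul_one, Complex.norm_real, Real.norm_eq_abs, abs_of_pos Real.pi_pos,
    Complex.norm_ofNat] at h1
  have h2 : ‖riemannZeta w‖ ≤ 2 * ((2 * Real.pi)⁻¹ * ∫ θ in (0 : ℝ)..2 * Real.pi, ‖riemannZeta (circleMap c r θ)‖) := by
    rw [← mul_assoc, mul_comm 2 ((2 * Real.pi)⁻¹), mul_assoc, inv_mul_eq_div, le_div_iff₀ h2pi]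
    linarith
  have h3 := avg_pow (p := 2) (by norm_num) hcont
  simp only [Real.rpow_two] at h3
  have h4 : ‖riemannZeta w‖ ^ 2 ≤ 4 * ((2 * Real.pi)⁻¹ * ∫ θ in (0 : ℝ)..2 * Real.pi, ‖riemannZeta (circleMap c r θ)‖ ^ 2) := by
    have h5 := pow_le_pow_left₀ (norm_nonneg _) h2 2
    rw [mul_pow] at h5
    linarith
  refine h4.trans ?_
  rw [mul_assoc]
  apply mul_le_mul_of_nonneg_left _ (by norm_num)
  unfold Pool.Agent.Q85.Mom.AA
  rw [mul_left_comm]
  apply mul_le_mul_of_nonneg_left _ (by positivity)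
  rw [← intervalIntegral.integral_const_mul]
  have hcont3 : Continuous fun θ : ℝ => Real.exp 2 * (Real.exp (lam * (r * Real.cos θ)) * ‖zx (r * Real.cos θ) (t + r * Real.sin θ)‖) ^ (2 : ℝ) := by
    have h6 : (fun θ : ℝ => Real.exp 2 * (Real.exp (lam * (r * Real.cos θ)) * ‖zx (r * Real.cos θ) (t + r * Real.sin θ)‖) ^ (2 : ℝ)) =
        fun θ : ℝ => Real.exp 2 * (Real.exp (lam * (r * Real.cos θ)) * ‖riemannZeta (circleMap c r θ)‖) ^ 2 := by
      funext θ
      rw [hc, circ t r θ, Real.rpow_two]
      rfl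
    rw [h6]
    exact (((by fun_prop : Continuous fun θ : ℝ => Real.exp (lam * (r * Real.cos θ))).mul hcont.norm).pow 2).const_mul _
  refine intervalIntegral.integral_mono_on h2pi.le ((hcont.norm.pow 2).intervalIntegrable _ _)
    (hcont3.intervalIntegrable _ _) fun θ _ => ?_
  have e1 : ‖zx (r * Real.cos θ) (t + r * Real.sin θ)‖ = ‖riemannZeta (circleMap c r θ)‖ := by
    rw [hc, circ t r θ]
    rfl
  rw [e1, Real.rpow_two, mul_pow, ← mul_assoc]
  have h7 : 1 ≤ Real.exp 2 * Real.exp (lam * (r * Real.cos θ)) ^ 2 := by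
    rw [← Real.exp_nat_mul, ← Real.exp_add]
    apply Real.one_le_exp
    have h8 := Real.neg_one_le_cos θ
    have h9 : 0 ≤ lam * r := by positivity
    push_cast
    nlinarith
  have h10 : 0 ≤ ‖riemannZeta (circleMap c r θ)‖ ^ 2 := by positivity
  nlinarith

/-- ZUP: crude upper bound for zeta near the critical line -/
theorem p_ZUP (hZ3 : P_Z3) : P_ZUP := by
  intro A' hA'
  obtain ⟨C, T₀, hC, hT₀, hI⟩ := AA_int
  refine ⟨(A' + 4) / 2, by positivity, ?_⟩
  have hlogt : Tendsto Real.log atTop atTop := Real.tendsto_log_atTop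
  filter_upwards [msq3 hZ3, eventually_ge_atTop (max (2 * T₀) (C ^ (2:ℝ) + 100)),
    hlogt.eventually_ge_atTop (max (2 * C) (300 * Real.exp 2 ^ 2)), hlogt.eventually_ge_atTop 16,
    hlogt.eventually_ge_atTop (4 * Real.exp 2)] with T h3 hTa hLa hL16 hLe
  have hT1 : 2 * T₀ ≤ T := (le_max_left _ _).trans hTa
  have hT2 : C ^ (2:ℝ) + 100 ≤ T := (le_max_right _ _).trans hTa
  have hC2 : 0 ≤ C ^ (2:ℝ) := by positivity
  have hT100 : 100 ≤ T := by linarith
  obtain ⟨L, hL⟩ : ∃ L : ℝ, L = Real.log T := ⟨_, rfl⟩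
  rw [← hL] at h3 hLa hL16 hLe ⊢
  have hL0 : 0 < L := by linarith
  have hlogle : L ≤ T / 8 + 2 := by
    -- log T ≤ T / 8 - 1 + log 8
    have h1 := Real.add_one_le_exp (T / 8 - 1)
    have h2 : Real.log T = Real.log (T / 8) + Real.log 8 := by
      rw [← Real.log_mul (by linarith) (by norm_num)]
      congr 1
      ring
    have h3 := Real.log_le_sub_one_of_pos (x := T / 8) (by linarith)
    have h4 : Real.log 8 ≤ 3 := by
      rw [show (8 : ℝ) = 2 ^ 3 by norm_num, Real.log_pow]
      have := Real.log_two_lt_d9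
      push_cast
      linarith
    linarith
  obtain ⟨r, hr⟩ : ∃ r : ℝ, r = 2 / L := ⟨_, rfl⟩
  obtain ⟨lam, hlam⟩ : ∃ lam : ℝ, lam = Real.log (T / 2) / 2 := ⟨_, rfl⟩
  have hlT2 : Real.log (T / 2) ≤ L := by
    rw [hL]
    exact Real.log_le_log (by linarith) (by linarith)
  have hlT2' : 0 ≤ Real.log (T / 2) := Real.log_nonneg (by linarith)
  have hlam0 : 0 ≤ lam := by rw [hlam]; linarith
  have hr0 : 0 < r := by rw [hr]; positivity
  have hr8 : r ≤ 1 / 8 := by
    rw [hr, div_le_iff₀ hL0]
    linarith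
  have hlr : lam * r ≤ 1 := by
    rw [hlam, hr]
    have : Real.log (T / 2) / 2 * (2 / L) = Real.log (T / 2) / L := by
      field_simp
    rw [this, div_le_one hL0]
    exact hlT2
  have hint := hI 2 (T / 2) T (2 * T) r (by norm_num) (by linarith) (by linarith)
    (by linarith) (by linarith) hr0.le hr8
  rw [← hlam] at hint
  have hAcont : Continuous (AA lam r 2) := AA_cont (by norm_num) hr0.le hr8
  obtain ⟨X, hX⟩ : ∃ X : ℝ, X = L ^ (A' + 3) := ⟨_, rfl⟩
  have hX0 : 0 < X := by rw [hX]; positivity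
  refine ⟨Set.Icc T (2 * T) ∩ {t | X < AA lam r 2 t},
    measurableSet_Icc.inter (measurableSet_lt measurable_const hAcont.measurable), Set.inter_subset_left, ?_, ?_⟩
  · -- Markov
    have hm : X * volume.real (Set.Icc T (2 * T) ∩ {t | X < AA lam r 2 t}) ≤ ∫ t in T..(2 * T), AA lam r 2 t := by
      rw [intervalIntegral.integral_of_le (by linarith), ← integral_Icc_eq_integral_Ioc]
      have hmeas : MeasurableSet {t | X < AA lam r 2 t} := measurableSet_lt measurable_const hAcont.measurable
      have hio : IntegrableOn (AA lam r 2) (Set.Icc T (2 * T)) := hAcont.continuousOn.integrableOn_compact isCompact_Icc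
      calc X * volume.real (Set.Icc T (2 * T) ∩ {t | X < AA lam r 2 t})
          = ∫ t in Set.Icc T (2 * T) ∩ {t | X < AA lam r 2 t}, X := by
            rw [setIntegral_const, smul_eq_mul, mul_comm]
        _ ≤ ∫ t in Set.Icc T (2 * T) ∩ {t | X < AA lam r 2 t}, AA lam r 2 t := by
            refine setIntegral_mono_on (integrableOn_const (hs := ?_)) (hio.mono_set Set.inter_subset_left)
              (measurableSet_Icc.inter hmeas) fun t ht => ht.2.le
            exact ((measure_mono Set.inter_subset_left).trans_lt isCompact_Icc.measure_lt_top).ne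
        _ ≤ ∫ t in Set.Icc T (2 * T), AA lam r 2 t :=
            setIntegral_mono_set hio (Eventually.of_forall fun t => AA_nonneg _ _ _ _)
              (LE.le.eventuallyLE Set.inter_subset_left)
    have hn : nrm 2 (T - 2 * Real.log (T / 2)) (2 * T + 2 * Real.log (T / 2)) Pool.Agent.Q85.Mom.z ^ 2 ≤
        12 * T * L ^ 2 := by
      refine le_trans ?_ h3
      unfold nrm Pool.Agent.Q85.Mom.z
      simp only [Real.rpow_two]
      rw [← Real.rpow_natCast, ← Real.rpow_mul (intervalIntegral.integral_nonneg (by linarith) fun t _ => by positivity)]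
      norm_num
      refine intervalIntegral.integral_mono_interval (by linarith) (by linarith) (by linarith)
        (Eventually.of_forall fun t => by positivity) ?_
      have := z_sq_int (T / 2) (4 * T)
      simpa using this
    have hb1 : 1 + 4 * Real.log (T / 2) / (T / 2) ≤ 5 := by
      have h1 : Real.log (T / 2) ≤ T / 2 := by
        have := Real.log_le_sub_one_of_pos (x := T / 2) (by linarith)
        linarith
      have h2 : 4 * Real.log (T / 2) / (T / 2) ≤ 4 := by
        rw [div_le_iff₀ (by linarith)]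
        linarith
      linarith
    have hb2 : Real.exp (r * (lam + C)) ≤ Real.exp 2 := by
      apply Real.exp_le_exp.2
      have h1 : r * lam ≤ 1 := by
        rw [mul_comm]
        exact hlr
      have h2 : r * C ≤ 1 := by
        rw [hr, div_mul_eq_mul_div, div_le_one hL0]
        exact (le_max_left _ _).trans hLa
      linarith
    have hb0 : 0 ≤ 1 + 4 * Real.log (T / 2) / (T / 2) := by positivity
    have hn0 : 0 ≤ nrm 2 (T - 2 * Real.log (T / 2)) (2 * T + 2 * Real.log (T / 2)) Pool.Agent.Q85.Mom.z := by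
      unfold nrm
      exact Real.rpow_nonneg (intervalIntegral.integral_nonneg (by linarith) fun t _ => by positivity) _
    have hmain : ∫ t in T..(2 * T), AA lam r 2 t ≤ (300 * Real.exp 2 ^ 2) * (T * L ^ 2) := by
      refine hint.trans ?_
      rw [Real.rpow_two, mul_pow, mul_pow]
      calc (1 + 4 * Real.log (T / 2) / (T / 2)) ^ 2 * Real.exp (r * (lam + C)) ^ 2 *
            nrm 2 (T - 2 * Real.log (T / 2)) (2 * T + 2 * Real.log (T / 2)) Pool.Agent.Q85.Mom.z ^ 2
          ≤ 5 ^ 2 * Real.exp 2 ^ 2 * (12 * T * L ^ 2) := by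
            refine mul_le_mul (mul_le_mul (pow_le_pow_left₀ hb0 hb1 2)
              (pow_le_pow_left₀ (Real.exp_pos _).le hb2 2) (by positivity) (by positivity)) hn
              (by positivity) (by positivity)
        _ = _ := by ring
    have hfin : X * volume.real (Set.Icc T (2 * T) ∩ {t | X < AA lam r 2 t}) ≤ L * (T * L ^ 2) := by
      refine (hm.trans hmain).trans ?_
      exact mul_le_mul_of_nonneg_right ((le_max_right _ _).trans hLa) (by positivity)
    have hXe : X = L ^ A' * L ^ 3 := by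
      rw [hX, Real.rpow_add hL0]
      congr 1
      exact_mod_cast Real.rpow_natCast L 3
    rw [le_div_iff₀ (by positivity)]
    rw [hXe] at hfin
    have hL3 : 0 < L ^ 3 := by positivity
    refine le_of_mul_le_mul_right (le_trans (le_of_eq ?_) (hfin.trans (le_of_eq ?_))) hL3
    · rw [hXe]
      ring
    · ring
  · intro t ht htE w hw
    have ht1 : t ∈ Set.Icc T (2 * T) := ⟨by linarith [ht.1], by linarith [ht.2]⟩
    have hAA : AA lam r 2 t ≤ X := by
      by_contra h
      exact htE ⟨ht1, not_le.1 h⟩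
    have h1 := disc_le hr0 hr8 hlam0 hlr (w := w) (t := t) (by
      rw [hr]
      refine hw.trans (le_of_eq ?_)
      field_simp)
    have h2 : ‖riemannZeta w‖ ^ 2 ≤ L * X := by
      refine h1.trans ?_
      exact mul_le_mul hLe hAA (AA_nonneg _ _ _ _) hL0.le
    have h3 : L * X = (L ^ ((A' + 4) / 2)) ^ 2 := by
      rw [hX, ← Real.rpow_natCast, ← Real.rpow_mul hL0.le]
      nth_rewrite 1 [← Real.rpow_one L]
      rw [← Real.rpow_add hL0]
      congr 1
      push_cast
      ring
    rw [h3] at h2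
    exact le_of_sq_le_sq h2 (by positivity)

end Pool.Agent.H510.EW
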