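import Pool.Agent.H510.EW.Imp
import Pool.Agent.H510.EW.G1
import Pool.Agent.H510.EW.Zup

/-!
# Project EW of helper745: the proofs of all hypotheses
-/

set_option autoImplicit false

namespace Pool.Agent.H510.EW

open Filter Topology MeasureTheory Complex H370 Pool.Agent.Y745.SW Pool.Agent.Y745.LD

theorem p_MVB : P_MVB := Pool.Agent.Y840.SW.t_MVB
theorem p_VM1 : P_VM1 := Pool.Agent.Y931.LD.t_VM1 p_MVB
theorem p_VMR : P_VMR := Pool.Agent.Y447.LD.t_VMR p_MVB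
theorem p_VMS : P_VMS := Pool.Agent.Y665.LD.t_VMS p_MVB p_VM1
theorem p_VMT : P_VMT := Pool.Agent.Y665.LD.t_VMT p_MVB p_VM1
theorem p_G2M : P_G2M := Pool.Agent.Y949.LD.t_G2M0
theorem p_PW : P_PW := Pool.Agent.Y363.LD.t_PW
theorem p_Z1 : P_Z1 := Pool.Agent.Y179.LD.t_Z1
theorem p_Z3 : P_Z3 := Pool.Agent.Y674.LD.t_Z3
theorem p_ZL2 : P_ZL2 := Pool.Agent.Y363.LD.t_ZL2 p_MVB p_VM1 p_VMR p_VMS p_Z1
theorem p_LOW : P_LOW := Pool.Agent.Y448.LD.t_LOW p_VM1 p_VMT p_PW p_G2M p_G1M p_ZL2 p_Z3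
theorem p_ZUP0 : P_ZUP := p_ZUP p_Z3
theorem p_DERV : P_DERV := Pool.Agent.Y954.LD.t_DERV p_VM1 p_VMT p_PW p_LOW p_ZUP0 Pool.Agent.Y655.SW.t_HAR
theorem p_EFU : P_EFU := Pool.Agent.Y210.LD.t_EFU
theorem p_VSM : P_VSM := Pool.Agent.Y732.LD.t_VSM p_VMR p_VMS p_EFU
theorem p_CNT2 : P_CNT2 := Pool.Agent.Y745.LD.t_CNT2 p_VSM
theorem p_VBX : Pool.Agent.Y745.EW.P_VBX :=
  Pool.Agent.Y745.EW.vblk2 Pool.Agent.Y833.SW.t_DI Pool.Agent.Y655.SW.t_TRK Pool.Agent.Y627.SW.t_MN H370.good_zeta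
    Pool.Agent.Y786.LD.t_KER2 Pool.Agent.Y290.LD.t_DFU (Pool.Agent.Y811.LD.t_VDQ p_VMR) p_EFU p_VSM p_CNT2
    Pool.Agent.Y871.LD.t_COST

open Classical in
/-- the statement of project EW of the library -/
theorem ew (ε : ℝ) (hε : 0 < ε) (hε2 : ε ≤ 1 / 2) : ∃ δ : ℝ, 0 < δ ∧ δ ≤ 1 / 10 ∧ ∀ κ : ℝ, ∃ e : ℝ, 0 < e ∧
    ∀ᶠ T : ℝ in atTop, ∃ (U1 U2 r : ℝ) (E : Set ℝ), T ≤ U1 ∧ U1 ≤ T + 1 ∧ 2 * T - 1 ≤ U2 ∧ U2 ≤ 2 * T ∧
      Real.log T ^ (e - 1) ≤ r ∧ r ≤ Real.log T ^ (ε - 1) ∧ MeasurableSet E ∧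
      E ⊆ Set.Icc (T + 6 * Real.log T) (2 * T - 6 * Real.log T) ∧
      T * Real.log T ^ (-κ ^ 2 - ε) ≤ volume.real E ∧ ∀ t ∈ E,
        |Real.log ‖riemannZeta (1 / 2 + t * I)‖ - κ * LL T| ≤ ε * LL T ∧
        (2 - cMTinv - ε) * (r * Real.log T / Real.pi) ≤
          ((((isoS U1 U2 (δ / Real.log T)).filter (fun s =>
            |Real.log ‖deriv riemannZeta s‖ - (1 + κ) * LL T| ≤ ε * LL T)).filter
              (fun s => |s.im - t| ≤ r)).card : ℝ) ∧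
        nz U1 U2 (t - r) (t + r) ≤
          ((((isoS U1 U2 (δ / Real.log T)).filter (fun s =>
            |Real.log ‖deriv riemannZeta s‖ - (1 + κ) * LL T| ≤ ε * LL T)).filter
              (fun s => |s.im - t| ≤ r)).card : ℝ) +
            (1 - (2 - cMTinv - ε)) * (r * Real.log T / Real.pi) := by
  have h := Pool.Agent.Y745.EW.ew_core p_VBX p_DERV p_LOW p_G1M p_G2M p_VM1 p_VMT p_PW Pool.Agent.Y288.EW.t_SEPC
    ε hε hε2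
  exact h

end Pool.Agent.H510.EW
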