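import Pool.Agent.H510.EW.SetsF

/-!
# Simple zeros near an arbitrary set of heights: consequences of the explicit bound
-/

set_option autoImplicit false

namespace Pool.Agent.H510.EW

open Filter Topology MeasureTheory Complex H370 Pool.Agent.Y745.SW

/-- the bound for all measurable sets, for one height -/
def AllSets (d r G T : ℝ) : Prop := ∀ S : Set ℝ, MeasurableSet S → S ⊆ Set.Icc T (2 * T) →
  Pl (volume.real S / T) * T * (2 * G) ≤ ∫ t in S, ((SimpleNear d r t).ncard : ℝ)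

lemma few_meas {d r T : ℝ} (hT : 1 < T - r) (y : ℝ) :
    MeasurableSet {t : ℝ | t ∈ Set.Icc T (2 * T) ∧ ((SimpleNear d r t).ncard : ℝ) < y} := by
  have e : {t : ℝ | t ∈ Set.Icc T (2 * T) ∧ ((SimpleNear d r t).ncard : ℝ) < y} =
      Set.Icc T (2 * T) ∩ {t : ℝ | ∑ γ ∈ (SimpleUp_finite d (2 * T + r)).toFinset,
      ({t : ℝ | |γ - t| ≤ r}.indicator (fun _ => (1 : ℝ)) t) < y} := by
    ext t
    constructor
    · rintro ⟨h1, h2⟩
      refine ⟨h1, ?_⟩
      rw [near_sum (d := d) (r := r) (t := t) (U := 2 * T + r) (by linarith [h1.1]) (by linarith [h1.2])] at h2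
      exact h2
    · rintro ⟨h1, h2⟩
      refine ⟨h1, ?_⟩
      rw [near_sum (d := d) (r := r) (t := t) (U := 2 * T + r) (by linarith [h1.1]) (by linarith [h1.2])]
      exact h2
  rw [e]
  refine measurableSet_Icc.inter (measurableSet_lt ?_ measurable_const)
  refine Finset.measurable_sum _ fun γ _ => measurable_const.indicator ?_
  exact measurableSet_le (by fun_prop) measurable_const

/-- the distribution of the number of simple zeros -/
lemma few {d r G T : ℝ} (h : AllSets d r G T) (hG : 0 < G) (hT : 0 < T) (hr : 1 < T - r) (θ : ℝ) :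
    Pl (volume.real {t : ℝ | t ∈ Set.Icc T (2 * T) ∧ ((SimpleNear d r t).ncard : ℝ) < θ * (2 * G)} / T) ≤
      θ * (volume.real {t : ℝ | t ∈ Set.Icc T (2 * T) ∧ ((SimpleNear d r t).ncard : ℝ) < θ * (2 * G)} / T) := by
  obtain ⟨B, hB⟩ : ∃ B : Set ℝ, B = {t : ℝ | t ∈ Set.Icc T (2 * T) ∧ ((SimpleNear d r t).ncard : ℝ) < θ * (2 * G)} :=
    ⟨_, rfl⟩
  rw [← hB]
  have hBm : MeasurableSet B := by rw [hB]; exact few_meas hr _
  have hBI : B ⊆ Set.Icc T (2 * T) := by rw [hB]; exact fun t ht => ht.1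
  have hBf : volume B ≠ ⊤ := ne_top_of_le_ne_top isCompact_Icc.measure_ne_top (measure_mono hBI)
  have h1 := h B hBm hBI
  have h2 : ∫ t in B, ((SimpleNear d r t).ncard : ℝ) ≤ ∫ _t in B, θ * (2 * G) := by
    refine setIntegral_mono_on (near_int (by linarith) hBm hBI) (integrableOn_const hBf) hBm fun t ht => ?_
    rw [hB] at ht
    exact ht.2.le
  rw [setIntegral_const, smul_eq_mul] at h2
  have h3 := h1.trans h2
  have h4 : volume.real B * (θ * (2 * G)) = θ * (volume.real B / T) * T * (2 * G) := by field_simp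
  rw [h4] at h3
  exact le_of_mul_le_mul_right (le_of_mul_le_mul_right h3 (by linarith)) hT

lemma ncard_simpleUp {d r G T : ℝ} (h : AllSets d r G T) (hr0 : 0 < r) (hr : 1 < T - r) {S : Set ℝ}
    (hS : MeasurableSet S) (hSI : S ⊆ Set.Icc T (2 * T)) :
    Pl (volume.real S / T) * T * (2 * G) ≤
      (({γ : ℝ | γ ∈ SimpleUp d (2 * T + r) ∧ ∃ t ∈ S, |γ - t| ≤ r}.ncard : ℕ) : ℝ) * (2 * r) := by
  classical
  refine (h S hS hSI).trans ?_
  have hSf : volume S ≠ ⊤ := ne_top_of_le_ne_top isCompact_Icc.measure_ne_top (measure_mono hSI)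
  obtain ⟨F, hF⟩ : ∃ F : Finset ℝ, F = (SimpleUp_finite d (2 * T + r)).toFinset := ⟨_, rfl⟩
  have e1 : ∫ t in S, ((SimpleNear d r t).ncard : ℝ) = ∑ γ ∈ F, ∫ t in S,
      ({t : ℝ | |γ - t| ≤ r}.indicator (fun _ => (1 : ℝ)) t) := by
    rw [← integral_finsetSum _ fun γ _ => ind_int γ r hSf, hF]
    refine setIntegral_congr_fun hS fun t ht => ?_
    have := hSI ht
    exact near_sum (by linarith [this.1]) (by linarith [this.2])
  rw [e1]
  have e2 : {γ : ℝ | γ ∈ SimpleUp d (2 * T + r) ∧ ∃ t ∈ S, |γ - t| ≤ r} =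
      ((F.filter (fun γ => ∃ t ∈ S, |γ - t| ≤ r) : Finset ℝ) : Set ℝ) := by
    ext γ
    rw [Finset.mem_coe, Finset.mem_filter, hF, Set.Finite.mem_toFinset]
    rfl
  rw [e2, Set.ncard_coe_finset, ← nsmul_eq_mul, ← Finset.sum_const, Finset.sum_filter]
  refine Finset.sum_le_sum fun γ _ => ?_
  have hm : MeasurableSet {t : ℝ | |γ - t| ≤ r} := measurableSet_le (by fun_prop) measurable_const
  rw [setIntegral_indicator hm, setIntegral_const, smul_eq_mul, mul_one]
  split_ifs with h1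
  · have h2 : S ∩ {t : ℝ | |γ - t| ≤ r} ⊆ Set.Icc (γ - r) (γ + r) := by
      rintro t ⟨-, ht⟩
      have := abs_le.1 (show |γ - t| ≤ r from ht)
      exact ⟨by linarith [this.2], by linarith [this.1]⟩
    refine (measureReal_mono h2 isCompact_Icc.measure_ne_top).trans ?_
    rw [Real.volume_real_Icc_of_le (by linarith)]
    linarith
  · have h2 : S ∩ {t : ℝ | |γ - t| ≤ r} = ∅ := by
      rw [Set.eq_empty_iff_forall_notMem]
      rintro t ⟨ht, ht2⟩
      exact h1 ⟨t, ht, ht2⟩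
    rw [h2, measureReal_empty]

/-- all shifted windows contain simple zeros -/
lemma shifts {d r T y : ℝ} (hT : 0 < T)
    (hB : volume.real {t : ℝ | t ∈ Set.Icc T (2 * T) ∧ ((SimpleNear d r t).ncard : ℝ) < y} ≤ 0.0623 * T)
    {m : ℕ} (a : Fin m → ℝ) (ha : ∀ i, |a i| ≤ T / 20000) :
    (1 - 0.0624 * m) * T ≤ volume.real {t : ℝ | t ∈ Set.Icc T (2 * T) ∧ ∀ i, y ≤ ((SimpleNear d r (t + a i)).ncard : ℝ)} := by
  obtain ⟨B, hBd⟩ : ∃ B : Set ℝ, B = {t : ℝ | t ∈ Set.Icc T (2 * T) ∧ ((SimpleNear d r t).ncard : ℝ) < y} := ⟨_, rfl⟩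
  rw [← hBd] at hB
  have hBI : B ⊆ Set.Icc T (2 * T) := by rw [hBd]; exact fun t ht => ht.1
  obtain ⟨E, hE⟩ : ∃ E : Set ℝ, E = {t : ℝ | t ∈ Set.Icc T (2 * T) ∧ ∀ i, y ≤ ((SimpleNear d r (t + a i)).ncard : ℝ)} :=
    ⟨_, rfl⟩
  rw [← hE]
  have hEI : E ⊆ Set.Icc T (2 * T) := by rw [hE]; exact fun t ht => ht.1
  obtain ⟨W, hW⟩ : ∃ W : Fin m → Set ℝ, W = fun i => ((fun t : ℝ => t + a i) ⁻¹' B) ∪
      (Set.Icc T (T + T / 20000) ∪ Set.Icc (2 * T - T / 20000) (2 * T)) := ⟨_, rfl⟩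
  have hsub : Set.Icc T (2 * T) ⊆ E ∪ ⋃ i, W i := by
    intro t ht
    by_cases h : ∀ i, y ≤ ((SimpleNear d r (t + a i)).ncard : ℝ)
    · left; rw [hE]; exact ⟨ht, h⟩
    · push Not at h
      obtain ⟨i, hi⟩ := h
      right
      rw [Set.mem_iUnion]
      refine ⟨i, ?_⟩
      rw [hW]
      have h1 := abs_le.1 (ha i)
      by_cases h2 : t + a i < T
      · right; left
        exact ⟨ht.1, by linarith⟩
      by_cases h3 : 2 * T < t + a i
      · right; right
        exact ⟨by linarith, ht.2⟩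
      push Not at h2 h3
      left
      rw [Set.mem_preimage, hBd]
      exact ⟨⟨h2, h3⟩, hi⟩
  have hWv : ∀ i, volume.real (W i) ≤ 0.0624 * T ∧ volume (W i) ≠ ⊤ := by
    intro i
    have e1 : volume ((fun t : ℝ => t + a i) ⁻¹' B) = volume B := measure_preimage_add_right volume (a i) B
    have hBf : volume B ≠ ⊤ := ne_top_of_le_ne_top isCompact_Icc.measure_ne_top (measure_mono hBI)
    rw [hW]
    constructor
    · refine (measureReal_union_le _ _).trans ?_
      have h4 := measureReal_union_le (μ := volume) (Set.Icc T (T + T / 20000)) (Set.Icc (2 * T - T / 20000) (2 * T))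
      rw [Real.volume_real_Icc_of_le (by linarith), Real.volume_real_Icc_of_le (by linarith)] at h4
      have e2 : volume.real ((fun t : ℝ => t + a i) ⁻¹' B) = volume.real B := by
        unfold Measure.real
        rw [e1]
      rw [e2]
      norm_num at hB h4 ⊢
      linarith
    · refine (measure_union_lt_top (by rw [e1]; exact lt_top_iff_ne_top.2 hBf) ?_).ne
      exact measure_union_lt_top isCompact_Icc.measure_lt_top isCompact_Icc.measure_lt_top
  have hEf : volume E ≠ ⊤ := ne_top_of_le_ne_top isCompact_Icc.measure_ne_top (measure_mono hEI)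
  have hUf : volume (⋃ i, W i) ≠ ⊤ := by
    refine ((measure_iUnion_fintype_le volume W).trans_lt ?_).ne
    rw [ENNReal.sum_lt_top]
    exact fun i _ => lt_top_iff_ne_top.2 (hWv i).2
  have h1 := measureReal_mono hsub (measure_union_lt_top (lt_top_iff_ne_top.2 hEf) (lt_top_iff_ne_top.2 hUf)).ne
  rw [Real.volume_real_Icc_of_le (by linarith)] at h1
  have h2 := measureReal_union_le (μ := volume) E (⋃ i, W i)
  have h3 : volume.real (⋃ i, W i) ≤ ∑ i, volume.real (W i) := measureReal_iUnion_fintype_le _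
  have h4 : ∑ i, volume.real (W i) ≤ ∑ _i : Fin m, 0.0624 * T := Finset.sum_le_sum fun i _ => (hWv i).1
  rw [Finset.sum_const, Finset.card_univ, Fintype.card_fin, nsmul_eq_mul] at h4
  linarith

/-- patterns of simple zeros -/
lemma patterns {d r T y : ℝ} (hT : 0 < T) (hr0 : 0 < r) (hy : 0 < y) (hr : 1 < T - T / 20000 - 3 * r)
    (hB : volume.real {t : ℝ | t ∈ Set.Icc T (2 * T) ∧ ((SimpleNear d r t).ncard : ℝ) < y} ≤ 0.0623 * T)
    (a : Fin 15 → ℝ) (ha : ∀ i, |a i| ≤ T / 20000) :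
    0.0016 * T ≤ (({γ : ℝ | γ ∈ SimpleUp d (2 * T + r) ∧ T - r ≤ γ ∧
      ∀ i, y ≤ ((SimpleNear d (2 * r) (γ + a i)).ncard : ℝ)}.ncard : ℕ) : ℝ) * (2 * r) := by
  classical
  have h1 := shifts (d := d) (r := r) (y := y) hT hB (m := 16) (Fin.cons 0 a) (fun i => by
    refine Fin.cases ?_ (fun j => ?_) i
    · rw [Fin.cons_zero, abs_zero]; positivity
    · rw [Fin.cons_succ]; exact ha j)
  obtain ⟨E, hE⟩ : ∃ E : Set ℝ, E = {t : ℝ | t ∈ Set.Icc T (2 * T) ∧
      ∀ i, y ≤ ((SimpleNear d r (t + (Fin.cons 0 a : Fin 16 → ℝ) i)).ncard : ℝ)} := ⟨_, rfl⟩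
  rw [← hE] at h1
  have hfin : {γ : ℝ | γ ∈ SimpleUp d (2 * T + r) ∧ T - r ≤ γ ∧
      ∀ i, y ≤ ((SimpleNear d (2 * r) (γ + a i)).ncard : ℝ)}.Finite :=
    (SimpleUp_finite d (2 * T + r)).subset fun γ h => h.1
  obtain ⟨F, hF⟩ : ∃ F : Finset ℝ, F = hfin.toFinset := ⟨_, rfl⟩
  have hcard : {γ : ℝ | γ ∈ SimpleUp d (2 * T + r) ∧ T - r ≤ γ ∧
      ∀ i, y ≤ ((SimpleNear d (2 * r) (γ + a i)).ncard : ℝ)}.ncard = F.card := by
    rw [hF, Set.ncard_eq_toFinset_card _ hfin]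
  rw [hcard]
  have hsub : E ⊆ ⋃ γ ∈ F, Set.Icc (γ - r) (γ + r) := by
    intro t ht
    rw [hE] at ht
    obtain ⟨ht1, ht2⟩ := ht
    have h0 := ht2 0
    rw [Fin.cons_zero, add_zero] at h0
    have hne : (SimpleNear d r t).Nonempty := by
      rw [Set.nonempty_iff_ne_empty]
      intro he
      rw [he, Set.ncard_empty] at h0
      norm_num at h0
      linarith
    obtain ⟨γ, hγ⟩ := hne
    have hγ1 := abs_le.1 hγ.1
    rw [Set.mem_iUnion₂]
    refine ⟨γ, ?_, by linarith [hγ1.1, hγ1.2], by linarith [hγ1.1, hγ1.2]⟩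
    rw [hF, Set.Finite.mem_toFinset]
    refine ⟨⟨by linarith [ht1.1, hγ1.1], by linarith [ht1.2, hγ1.2], hγ.2⟩, by linarith [ht1.1, hγ1.1], fun i => ?_⟩
    have h3 := ht2 i.succ
    rw [Fin.cons_succ] at h3
    refine h3.trans ?_
    have hai := abs_le.1 (ha i)
    have : SimpleNear d r (t + a i) ⊆ SimpleNear d (2 * r) (γ + a i) := by
      rintro x ⟨hx1, hx2⟩
      refine ⟨?_, hx2⟩
      have hx := abs_le.1 hx1
      rw [abs_le]
      constructor <;> linarith [hγ1.1, hγ1.2, hx.1, hx.2]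
    exact_mod_cast Set.ncard_le_ncard this (SimpleNear_finite (by linarith [ht1.1, hγ1.1]))
  have hfU : volume (⋃ γ ∈ F, Set.Icc (γ - r) (γ + r)) ≠ ⊤ := by
    refine ((measure_biUnion_finset_le F _).trans_lt ?_).ne
    rw [ENNReal.sum_lt_top]
    exact fun i _ => isCompact_Icc.measure_lt_top
  have h2 := measureReal_mono hsub hfU
  have h3 : volume.real (⋃ γ ∈ F, Set.Icc (γ - r) (γ + r)) ≤ ∑ γ ∈ F, volume.real (Set.Icc (γ - r) (γ + r)) :=
    measureReal_biUnion_finset_le F _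
  have h4 : ∑ γ ∈ F, volume.real (Set.Icc (γ - r) (γ + r)) = F.card * (2 * r) := by
    rw [← nsmul_eq_mul, ← Finset.sum_const]
    refine Finset.sum_congr rfl fun γ _ => ?_
    rw [Real.volume_real_Icc_of_le (by linarith)]
    ring
  norm_num at h1 ⊢
  linarith

end Pool.Agent.H510.EW
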