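import Pool.Graph.R_pool_sql_team_seeded_c8625f6e.K4H6.Qn.Bn

/-!
# Four kernels and their constants
-/

set_option autoImplicit false

namespace Pool.Agent.H510.EW

open Filter Topology MeasureTheory Complex Pool.Agent.K4H6.Cov Pool.Agent.K4H6.Qn

noncomputable section

/-- the half widths of the boxes, kernel 1 -/
def h1 : Fin 4 → ℝ := ![8 / 40, 13 / 40, 17 / 40, 20 / 40]

/-- the weights of the boxes, kernel 1 -/
def c1 : Fin 4 → ℝ := ![5 / 72, 5 / 72, 5 / 72, 125 / 144]

lemma box1 : BoxSum h1 c1 where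
  h0 := by
    intro i
    fin_cases i <;> norm_num [h1]
  h1 := by
    intro i
    fin_cases i <;> norm_num [h1]
  c0 := by
    intro i
    fin_cases i <;> norm_num [c1]
  one := by
    simp only [Fin.sum_univ_succ, Finset.univ_eq_empty, Finset.sum_empty, h1, c1]
    norm_num [Fin.succ]

lemma zero1 : Rn h1 c1 0 = 20855 / 20736 := by
  unfold Rn trap
  simp only [Fin.sum_univ_succ, Finset.univ_eq_empty, Finset.sum_empty, h1, c1]
  norm_num [Fin.succ]

lemma full1 : ∫ x in (0:ℝ)..1, x * Rn h1 c1 x = 3206003 / 19906560 := by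
  rw [xRn_int]
  simp_rw [fun i j : Fin 4 => full (box1.h0 i) (box1.h0 j) (by linarith [box1.h1 i, box1.h1 j] : h1 i + h1 j ≤ 1)]
  unfold Af
  simp only [Fin.sum_univ_succ, Finset.univ_eq_empty, Finset.sum_empty, h1, c1]
  norm_num [Fin.succ, abs_of_nonneg, abs_of_nonpos]

lemma half1 : ∫ x in (1/2:ℝ)..1, x * Rn h1 c1 x = 3003901 / 39813120 := by
  rw [xRn_int]
  simp_rw [fun i j : Fin 4 => half (box1.h0 i) (box1.h0 j) (box1.h1 i) (box1.h1 j)]
  unfold Bf
  simp only [Fin.sum_univ_succ, Finset.univ_eq_empty, Finset.sum_empty, h1, c1]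
  norm_num [Fin.succ]

/-- the half widths of the boxes, kernel 2 -/
def h2 : Fin 4 → ℝ := ![7 / 40, 12 / 40, 16 / 40, 20 / 40]

/-- the weights of the boxes, kernel 2 -/
def c2 : Fin 4 → ℝ := ![100 / 703, 120 / 703, 120 / 703, 500 / 703]

lemma box2 : BoxSum h2 c2 where
  h0 := by
    intro i
    fin_cases i <;> norm_num [h2]
  h1 := by
    intro i
    fin_cases i <;> norm_num [h2]
  c0 := by
    intro i
    fin_cases i <;> norm_num [c2]
  one := by
    simp only [Fin.sum_univ_succ, Finset.univ_eq_empty, Finset.sum_empty, h2, c2]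
    norm_num [Fin.succ]

lemma zero2 : Rn h2 c2 0 = 510740 / 494209 := by
  unfold Rn trap
  simp only [Fin.sum_univ_succ, Finset.univ_eq_empty, Finset.sum_empty, h2, c2]
  norm_num [Fin.succ]

lemma full2 : ∫ x in (0:ℝ)..1, x * Rn h2 c2 x = 18109517 / 118610160 := by
  rw [xRn_int]
  simp_rw [fun i j : Fin 4 => full (box2.h0 i) (box2.h0 j) (by linarith [box2.h1 i, box2.h1 j] : h2 i + h2 j ≤ 1)]
  unfold Af
  simp only [Fin.sum_univ_succ, Finset.univ_eq_empty, Finset.sum_empty, h2, c2]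
  norm_num [Fin.succ, abs_of_nonneg, abs_of_nonpos]

lemma half2 : ∫ x in (1/2:ℝ)..1, x * Rn h2 c2 x = 5087571 / 79073440 := by
  rw [xRn_int]
  simp_rw [fun i j : Fin 4 => half (box2.h0 i) (box2.h0 j) (box2.h1 i) (box2.h1 j)]
  unfold Bf
  simp only [Fin.sum_univ_succ, Finset.univ_eq_empty, Finset.sum_empty, h2, c2]
  norm_num [Fin.succ]

/-- the half widths of the boxes, kernel 3 -/
def h3 : Fin 5 → ℝ := ![6 / 40, 10 / 40, 14 / 40, 17 / 40, 20 / 40]

/-- the weights of the boxes, kernel 3 -/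
def c3 : Fin 5 → ℝ := ![320 / 1571, 440 / 1571, 500 / 1571, 500 / 1571, 480 / 1571]

lemma box3 : BoxSum h3 c3 where
  h0 := by
    intro i
    fin_cases i <;> norm_num [h3]
  h1 := by
    intro i
    fin_cases i <;> norm_num [h3]
  c0 := by
    intro i
    fin_cases i <;> norm_num [c3]
  one := by
    simp only [Fin.sum_univ_succ, Finset.univ_eq_empty, Finset.sum_empty, h3, c3]
    norm_num [Fin.succ]

lemma zero3 : Rn h3 c3 0 = 2859260 / 2468041 := by
  unfold Rn trap
  simp only [Fin.sum_univ_succ, Finset.univ_eq_empty, Finset.sum_empty, h3, c3]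
  norm_num [Fin.succ]

lemma full3 : ∫ x in (0:ℝ)..1, x * Rn h3 c3 x = 4954373 / 37020615 := by
  rw [xRn_int]
  simp_rw [fun i j : Fin 5 => full (box3.h0 i) (box3.h0 j) (by linarith [box3.h1 i, box3.h1 j] : h3 i + h3 j ≤ 1)]
  unfold Af
  simp only [Fin.sum_univ_succ, Finset.univ_eq_empty, Finset.sum_empty, h3, c3]
  norm_num [Fin.succ, abs_of_nonneg, abs_of_nonpos]

lemma half3 : ∫ x in (1/2:ℝ)..1, x * Rn h3 c3 x = 16578703 / 394886560 := by
  rw [xRn_int]
  simp_rw [fun i j : Fin 5 => half (box3.h0 i) (box3.h0 j) (box3.h1 i) (box3.h1 j)]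
  unfold Bf
  simp only [Fin.sum_univ_succ, Finset.univ_eq_empty, Finset.sum_empty, h3, c3]
  norm_num [Fin.succ]

/-- the half widths of the boxes, kernel 4 -/
def h4 : Fin 5 → ℝ := ![7 / 40, 9 / 40, 11 / 40, 13 / 40, 14 / 40]

/-- the weights of the boxes, kernel 4 -/
def c4 : Fin 5 → ℝ := ![220 / 1073, 320 / 1073, 440 / 1073, 400 / 1073, 500 / 1073]

lemma box4 : BoxSum h4 c4 where
  h0 := by
    intro i
    fin_cases i <;> norm_num [h4]
  h1 := by
    intro i
    fin_cases i <;> norm_num [h4]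
  c0 := by
    intro i
    fin_cases i <;> norm_num [c4]
  one := by
    simp only [Fin.sum_univ_succ, Finset.univ_eq_empty, Finset.sum_empty, h4, c4]
    norm_num [Fin.succ]

lemma zero4 : Rn h4 c4 0 = 1785660 / 1151329 := by
  unfold Rn trap
  simp only [Fin.sum_univ_succ, Finset.univ_eq_empty, Finset.sum_empty, h4, c4]
  norm_num [Fin.succ]

lemma full4 : ∫ x in (0:ℝ)..1, x * Rn h4 c4 x = 9276767 / 92106320 := by
  rw [xRn_int]
  simp_rw [fun i j : Fin 5 => full (box4.h0 i) (box4.h0 j) (by linarith [box4.h1 i, box4.h1 j] : h4 i + h4 j ≤ 1)]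
  unfold Af
  simp only [Fin.sum_univ_succ, Finset.univ_eq_empty, Finset.sum_empty, h4, c4]
  norm_num [Fin.succ, abs_of_nonneg, abs_of_nonpos]

lemma half4 : ∫ x in (1/2:ℝ)..1, x * Rn h4 c4 x = 5203961 / 552637920 := by
  rw [xRn_int]
  simp_rw [fun i j : Fin 5 => half (box4.h0 i) (box4.h0 j) (box4.h1 i) (box4.h1 j)]
  unfold Bf
  simp only [Fin.sum_univ_succ, Finset.univ_eq_empty, Finset.sum_empty, h4, c4]
  norm_num [Fin.succ]

end

end Pool.Agent.H510.EW
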