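import Pool.Agent.H510.EW.SetsG
import Pool.Agent.H510.EW.SetsK

/-!
# Simple zeros near an arbitrary set of heights: the explicit bound and its consequences
-/

set_option autoImplicit false

namespace Pool.Agent.H510.EW

open Filter Topology MeasureTheory Complex H370 Pool.Agent.Y745.SW
open Pool.Agent.K4H6.Cov (Ker kt Rt ker_t Rt_zero full_val half_val)
open Pool.Agent.K4H6.Qn (ker_n Rn_int_le)

/-- the five linear lower bounds -/
def Pl (s : ℝ) : ℝ := max (max (max (max (0.82305 * s - 0.15091) (0.78986 * s - 0.12869)) (0.65779 * s - 0.08398))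
  (0.26644 * s - 0.01884)) (0.14834 * s - 0.00924)

/-- one kernel, with rounded constants -/
lemma one_ker {kt : ℂ → ℂ} {R : ℝ → ℝ} (hk0 : Ker kt R) (hR02 : R 0 ≤ 2)
    (hRi : (∫ x in (0:ℝ)..1, x * R x) ≤ 1 / 2 - 1 / 50) {a b : ℝ} (ha0 : 0 ≤ a) (ha2 : a ≤ 2) (a' b' : ℝ)
    (ha : a' = 2 - R 0 - 2 * ((∫ x in (0:ℝ)..1, x * R x) - ∫ x in (1/2:ℝ)..1, x * R x))
    (hb : b' = 2 * (∫ x in (1/2:ℝ)..1, x * R x)) (h1 : a ≤ a') (ha'2 : a' ≤ 2) (h2 : b' + 1 / 1000000 ≤ b) :
    ∃ d G₀ : ℝ, 0 < d ∧ 0 < G₀ ∧ ∀ G : ℝ, G₀ ≤ G → ∀ᶠ T : ℝ in atTop, ∀ S : Set ℝ, MeasurableSet S →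
      S ⊆ Set.Icc T (2 * T) →
      (a * (volume.real S / T) - b) * T * (2 * G) ≤
        ∫ t in S, ((SimpleNear (d / Real.log T) (G * (2 * Real.pi / Real.log T)) t).ncard : ℝ) := by
  obtain ⟨d, G₀, hd, hG₀, h⟩ := sets_ker hk0 hR02 hRi ha hb ha'2 (ε := 1 / 1000000) (by norm_num)
  refine ⟨d, G₀, hd, hG₀, fun G hG => ?_⟩
  filter_upwards [h G hG, eventually_gt_atTop 0] with T hT hT0 S hS hSI
  refine le_trans ?_ (hT S hS hSI)
  refine mul_le_mul_of_nonneg_right ?_ (by linarith)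
  have e : (a * (volume.real S / T) - b) * T = a * volume.real S - b * T := by field_simp
  rw [e]
  have h3 : a * volume.real S ≤ a' * volume.real S := mul_le_mul_of_nonneg_right h1 measureReal_nonneg
  have h4 : (b' + 1 / 1000000) * T ≤ b * T := mul_le_mul_of_nonneg_right h2 hT0.le
  linarith

/-- smaller isolation and larger windows -/
lemma near_mono {d d' r t : ℝ} (hd : d ≤ d') : SimpleNear d' r t ⊆ SimpleNear d r t :=
  fun _ h => ⟨h.1, h.2.1, h.2.2.1, fun ρ h1 h2 => hd.trans (h.2.2.2 ρ h1 h2)⟩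

lemma int_mono {d d' r T : ℝ} (hT : 1 < T - r) (hd : d ≤ d') {S : Set ℝ} (hS : MeasurableSet S)
    (hSI : S ⊆ Set.Icc T (2 * T)) : ∫ t in S, ((SimpleNear d' r t).ncard : ℝ) ≤
      ∫ t in S, ((SimpleNear d r t).ncard : ℝ) := by
  refine setIntegral_mono_on (near_int (by linarith) hS hSI) (near_int (by linarith) hS hSI) hS fun t ht => ?_
  have := hSI ht
  exact_mod_cast Set.ncard_le_ncard (near_mono hd) (SimpleNear_finite (by linarith [this.1]))

/-- **simple zeros near arbitrary sets of heights**: the explicit bound -/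
theorem sets5 : ∃ d G₀ : ℝ, 0 < d ∧ 0 < G₀ ∧ ∀ G : ℝ, G₀ ≤ G → ∀ᶠ T : ℝ in atTop, ∀ S : Set ℝ, MeasurableSet S →
      S ⊆ Set.Icc T (2 * T) →
      Pl (volume.real S / T) * T * (2 * G) ≤
        ∫ t in S, ((SimpleNear (d / Real.log T) (G * (2 * Real.pi / Real.log T)) t).ncard : ℝ) := by
  obtain ⟨d1, G1, hd1, hG1, k1⟩ := one_ker (ker_n box1) (by rw [zero1]; norm_num)
    ((Rn_int_le box1).trans (by norm_num)) (a := 0.82305) (b := 0.15091) (by norm_num) (by norm_num)
    (1092281/1327104) (3003901/19906560) (by rw [zero1, full1, half1]; norm_num) (by rw [half1]; norm_num)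
    (by norm_num) (by norm_num) (by norm_num)
  obtain ⟨d2, G2, hd2, hG2, k2⟩ := one_ker (ker_n box2) (by rw [zero2]; norm_num)
    ((Rn_int_le box2).trans (by norm_num)) (a := 0.78986) (b := 0.12869) (by norm_num) (by norm_num)
    (93686399/118610160) (5087571/39536720) (by rw [zero2, full2, half2]; norm_num) (by rw [half2]; norm_num)
    (by norm_num) (by norm_num) (by norm_num)
  obtain ⟨d3, G3, hd3, hG3, k3⟩ := one_ker (ker_n box3) (by rw [zero3]; norm_num)
    ((Rn_int_le box3).trans (by norm_num)) (a := 0.65779) (b := 0.08398) (by norm_num) (by norm_num)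
    (389633453/592329840) (16578703/197443280) (by rw [zero3, full3, half3]; norm_num) (by rw [half3]; norm_num)
    (by norm_num) (by norm_num) (by norm_num)
  obtain ⟨d4, G4, hd4, hG4, k4⟩ := one_ker (ker_n box4) (by rw [zero4]; norm_num)
    ((Rn_int_le box4).trans (by norm_num)) (a := 0.26644) (b := 0.01884) (by norm_num) (by norm_num)
    (73622879/276318960) (5203961/276318960) (by rw [zero4, full4, half4]; norm_num) (by rw [half4]; norm_num)
    (by norm_num) (by norm_num) (by norm_num)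
  obtain ⟨d5, G5, hd5, hG5, k5⟩ := one_ker ker_t (by rw [Rt_zero]; norm_num)
    (by rw [full_val]; norm_num) (a := 0.14834) (b := 0.00924) (by norm_num) (by norm_num)
    (2 - 1143947 / 617796) (28517 / 3088980) (by rw [Rt_zero, full_val, half_val]; norm_num)
    (by rw [half_val]; norm_num) (by norm_num) (by norm_num) (by norm_num)
  obtain ⟨d, hd⟩ : ∃ d, d = min (min (min (min d1 d2) d3) d4) d5 := ⟨_, rfl⟩
  obtain ⟨G₀, hG₀⟩ : ∃ G₀, G₀ = max (max (max (max G1 G2) G3) G4) G5 := ⟨_, rfl⟩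
  have hd0 : 0 < d := by rw [hd]; positivity
  have a1 : d ≤ d1 := by rw [hd]; simp
  have a2 : d ≤ d2 := by rw [hd]; simp
  have a3 : d ≤ d3 := by rw [hd]; simp
  have a4 : d ≤ d4 := by rw [hd]; simp
  have a5 : d ≤ d5 := by rw [hd]; simp
  have b1 : G1 ≤ G₀ := by rw [hG₀]; simp
  have b2 : G2 ≤ G₀ := by rw [hG₀]; simp
  have b3 : G3 ≤ G₀ := by rw [hG₀]; simp
  have b4 : G4 ≤ G₀ := by rw [hG₀]; simp
  have b5 : G5 ≤ G₀ := by rw [hG₀]; simp
  refine ⟨d, G₀, hd0, hG1.trans_le b1, fun G hG => ?_⟩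
  have hG0 : 0 < G := (hG1.trans_le b1).trans_le hG
  have hlog := Real.tendsto_log_atTop
  filter_upwards [k1 G (b1.trans hG), k2 G (b2.trans hG), k3 G (b3.trans hG), k4 G (b4.trans hG), k5 G (b5.trans hG),
    eventually_gt_atTop 10, hlog.eventually_ge_atTop 1, hlog.eventually_ge_atTop (G * (2 * Real.pi))]
    with T t1 t2 t3 t4 t5 hT hL hLG S hS hSI
  have hL0 : 0 < Real.log T := by linarith
  have hr : G * (2 * Real.pi / Real.log T) ≤ 1 := by
    rw [← mul_div_assoc, div_le_one hL0]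
    exact hLG
  have hmul : 0 < T * (2 * G) := by positivity
  have key : ∀ d' : ℝ, d ≤ d' → ∫ t in S, ((SimpleNear (d' / Real.log T) (G * (2 * Real.pi / Real.log T)) t).ncard : ℝ) ≤
      ∫ t in S, ((SimpleNear (d / Real.log T) (G * (2 * Real.pi / Real.log T)) t).ncard : ℝ) := fun d' hd' =>
    int_mono (by linarith) (by gcongr) hS hSI
  have t1' := (t1 S hS hSI).trans (key d1 a1)
  have t2' := (t2 S hS hSI).trans (key d2 a2)
  have t3' := (t3 S hS hSI).trans (key d3 a3)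
  have t4' := (t4 S hS hSI).trans (key d4 a4)
  have t5' := (t5 S hS hSI).trans (key d5 a5)
  rw [mul_assoc] at t1' t2' t3' t4' t5' ⊢
  rw [← le_div_iff₀ hmul] at t1' t2' t3' t4' t5' ⊢
  unfold Pl
  exact max_le (max_le (max_le (max_le t1' t2') t3') t4') t5'

end Pool.Agent.H510.EW
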