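import Pool.Agent.H510.EW.CoreX
import Pool.Agent.H510.EW.CovFin

/-!
# Simple zeros near an arbitrary set of heights: general kernels, in terms of the zeros
-/

set_option autoImplicit false

namespace Pool.Agent.H510.EW

open Filter Topology MeasureTheory Complex H370 Pool.Agent.Y745.SW
open Pool.Agent.K4H6.Cov (Ker kt Rt ker_t)

/-- the isolated simple zeros with ordinate in `[1, U]` -/
def SimpleUp (d U : ℝ) : Set ℝ :=
  {γ : ℝ | 1 < γ ∧ γ ≤ U ∧ riemannZeta (1 / 2 + γ * I) = 0 ∧ deriv riemannZeta (1 / 2 + γ * I) ≠ 0 ∧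
    ∀ ρ : ℂ, riemannZeta ρ = 0 → ρ ≠ 1 / 2 + γ * I → d ≤ ‖ρ - (1 / 2 + γ * I)‖}

lemma SimpleUp_finite (d U : ℝ) : (SimpleUp d U).Finite := by
  classical
  refine Set.Finite.subset (((Zf riemannZeta 1 (U + 1)).image Complex.im).finite_toSet) fun γ hγ => ?_
  obtain ⟨h1, h2, h3, -, -⟩ := hγ
  rw [Finset.coe_image, Set.mem_image]
  refine ⟨1 / 2 + γ * I, ?_, by simp⟩
  rw [Finset.mem_coe, mem_Zf good_zeta le_rfl]
  have e1 : (1 / 2 + γ * I : ℂ).re = 1 / 2 := by simp
  have e2 : (1 / 2 + γ * I : ℂ).im = γ := by simp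
  refine ⟨?_, ?_, ?_, ?_, h3⟩
  · rw [e1]; norm_num
  · rw [e1]; norm_num
  · rw [e2]; linarith
  · rw [e2]; linarith

/-- the count near `t` as a sum of indicators -/
lemma near_sum {d r t U : ℝ} (h1 : 1 < t - r) (h2 : t + r ≤ U) :
    ((SimpleNear d r t).ncard : ℝ) = ∑ γ ∈ (SimpleUp_finite d U).toFinset,
      ({t : ℝ | |γ - t| ≤ r}.indicator (fun _ => (1 : ℝ)) t) := by
  classical
  have e : SimpleNear d r t = (((SimpleUp_finite d U).toFinset.filter (fun γ => |γ - t| ≤ r) : Finset ℝ) : Set ℝ) := by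
    ext γ
    rw [Finset.coe_filter, Set.mem_ofPred_eq, Set.Finite.mem_toFinset]
    constructor
    · rintro ⟨a1, a2, a3, a4⟩
      have := abs_le.1 a1
      exact ⟨⟨by linarith, by linarith, a2, a3, a4⟩, a1⟩
    · rintro ⟨⟨-, -, a2, a3, a4⟩, a1⟩
      exact ⟨a1, a2, a3, a4⟩
  rw [e, Set.ncard_coe_finset, Finset.card_filter]
  push_cast
  refine Finset.sum_congr rfl fun s _ => ?_
  by_cases hs : |s - t| ≤ r
  · rw [if_pos hs, Set.indicator_of_mem (show t ∈ {t : ℝ | |s - t| ≤ r} from hs)]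
  · rw [if_neg hs, Set.indicator_of_notMem (show t ∉ {t : ℝ | |s - t| ≤ r} from hs)]

lemma ind_int (γ r : ℝ) {S : Set ℝ} (hSf : volume S ≠ ⊤) :
    IntegrableOn (fun t : ℝ => {t : ℝ | |γ - t| ≤ r}.indicator (fun _ => (1 : ℝ)) t) S := by
  have hm : MeasurableSet {t : ℝ | |γ - t| ≤ r} := measurableSet_le (by fun_prop) measurable_const
  exact (integrableOn_const (C := (1:ℝ)) hSf).indicator hm

lemma near_int {d r a b : ℝ} (h1 : 1 < a - r) {S : Set ℝ} (hS : MeasurableSet S) (hSI : S ⊆ Set.Icc a b) :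
    IntegrableOn (fun t : ℝ => ((SimpleNear d r t).ncard : ℝ)) S := by
  have hSf : volume S ≠ ⊤ := ne_top_of_le_ne_top isCompact_Icc.measure_ne_top (measure_mono hSI)
  have h : IntegrableOn (fun t : ℝ => ∑ γ ∈ (SimpleUp_finite d (b + r)).toFinset,
      ({t : ℝ | |γ - t| ≤ r}.indicator (fun _ => (1 : ℝ)) t)) S :=
    integrable_finsetSum _ fun γ _ => ind_int γ r hSf
  refine h.congr_fun (fun t ht => ?_) hS
  have := hSI ht
  exact (near_sum (by linarith [this.1]) (by linarith [this.2])).symm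

/-- **simple zeros near arbitrary sets of heights**, any kernel -/
theorem sets_ker {kt : ℂ → ℂ} {R : ℝ → ℝ} (hk0 : Ker kt R) (hR02 : R 0 ≤ 2)
    (hRi : (∫ x in (0:ℝ)..1, x * R x) ≤ 1 / 2 - 1 / 50) {a b : ℝ}
    (ha : a = 2 - R 0 - 2 * ((∫ x in (0:ℝ)..1, x * R x) - ∫ x in (1/2:ℝ)..1, x * R x))
    (hb : b = 2 * (∫ x in (1/2:ℝ)..1, x * R x)) (ha2 : a ≤ 2) {ε : ℝ} (hε : 0 < ε) :
    ∃ d G₀ : ℝ, 0 < d ∧ 0 < G₀ ∧ ∀ G : ℝ, G₀ ≤ G → ∀ᶠ T : ℝ in atTop, ∀ S : Set ℝ, MeasurableSet S →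
      S ⊆ Set.Icc T (2 * T) →
      (a * volume.real S - (b + ε) * T) * (2 * G) ≤
        ∫ t in S, ((SimpleNear (d / Real.log T) (G * (2 * Real.pi / Real.log T)) t).ncard : ℝ) := by
  classical
  obtain ⟨g, hgd⟩ : ∃ g, g = min (1 / 1000) (ε / 120) := ⟨_, rfl⟩
  have hg : 0 < g := by rw [hgd]; positivity
  have hg1 : g ≤ 1 / 1000 := by rw [hgd]; exact min_le_left _ _
  have hg2 : 60 * g ≤ ε / 2 := by
    have : g ≤ ε / 120 := by rw [hgd]; exact min_le_right _ _
    linarith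
  obtain ⟨δ, τm, N, hδ, hδ1, hτm, hN, h⟩ :=
    coreX good_zeta p_KER p_ERS p_MN p_DF p_EF p_SM p_MVB' hk0 hR02 hRi hg hg1
  obtain ⟨cc, hcc, C0, T0, hC0, hT0, hef⟩ := explicit_formula good_zeta
  have hpi := Real.pi_pos
  have hN0 : 0 < N := by linarith
  refine ⟨δ, N / (2 * Real.pi * τm), hδ, by positivity, fun G hG => ?_⟩
  have hG0 : 0 < G := lt_of_lt_of_le (by positivity) hG
  obtain ⟨τ, hτd⟩ : ∃ τ : ℝ, τ = N / (2 * Real.pi * G) := ⟨_, rfl⟩
  have hτ0 : 0 < τ := by rw [hτd]; positivity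
  have hττ : τ ≤ τm := by
    rw [hτd, div_le_iff₀ (by positivity)]
    rw [div_le_iff₀ (by positivity)] at hG
    linarith
  have hlog := Real.tendsto_log_atTop
  have hlo := Real.isLittleO_log_id_atTop.def (c := min (1 / 100000) (ε / 8)) (by positivity)
  filter_upwards [h τ hτ0 hττ cc C0 hcc, eventually_ge_atTop T0, eventually_ge_atTop 10, hlog.eventually_ge_atTop 10,
    hlog.eventually_ge_atTop (G * (2 * Real.pi)), hlo] with T hT hTT hT1 hL hLG hlo S hSm hSI
  rw [Real.norm_eq_abs, Real.norm_eq_abs, id, abs_of_pos (by linarith : 0 < T)] at hlo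
  have hT0' : 0 < T := by linarith
  have hlo1 : Real.log T ≤ 1 / 100000 * T :=
    (le_abs_self _).trans (hlo.trans (mul_le_mul_of_nonneg_right (min_le_left _ _) hT0'.le))
  have hlo2 : Real.log T ≤ ε / 8 * T :=
    (le_abs_self _).trans (hlo.trans (mul_le_mul_of_nonneg_right (min_le_right _ _) hT0'.le))
  obtain ⟨U1, U2, hU1, hU1', hU2, hU2', heft⟩ := hef T hTT
  have hefd : EFD cc C0 T U1 U2 := ⟨hcc, hU1, hU1', hU2, hU2', heft⟩
  obtain ⟨L, hLd⟩ : ∃ L : ℝ, L = Real.log T := ⟨_, rfl⟩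
  rw [← hLd] at hT hL hLG hlo1 hlo2 ⊢
  have hL0 : 0 < L := by linarith
  obtain ⟨r, hr⟩ : ∃ r : ℝ, r = N / (τ * L) := ⟨_, rfl⟩
  have hr2 : G * (2 * Real.pi / L) = r := by
    rw [hr, hτd]
    field_simp
  have hM : N / (Real.pi * τ) = 2 * G := by
    rw [hτd]
    field_simp
  have hr0 : 0 < r := by rw [hr]; positivity
  have hr1 : r ≤ 1 := by
    rw [← hr2, ← mul_div_assoc, div_le_one hL0]
    exact hLG
  obtain ⟨S', hS'⟩ : ∃ S' : Set ℝ, S' = S ∩ Set.Icc (T + L) (2 * T - L) := ⟨_, rfl⟩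
  have hSm' : MeasurableSet S' := by rw [hS']; exact hSm.inter measurableSet_Icc
  have hSf : volume S ≠ ⊤ := ne_top_of_le_ne_top isCompact_Icc.measure_ne_top (measure_mono hSI)
  have hSS : S' ⊆ S := by rw [hS']; exact Set.inter_subset_left
  have hSI' : S' ⊆ Set.Icc (T + L) (2 * T - L) := by rw [hS']; exact Set.inter_subset_right
  have h1 := hT U1 U2 hefd S' hSm' hSI'
  rw [← ha, ← hb, hM, ← hr] at h1
  rw [hr2]
  -- the measure of `S'`
  have hv1 : volume.real S ≤ volume.real S' + 2 * L := by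
    have hsub : S ⊆ S' ∪ (Set.Icc T (T + L) ∪ Set.Icc (2 * T - L) (2 * T)) := by
      intro t ht
      have ht' := hSI ht
      by_cases h2 : t < T + L
      · exact Or.inr (Or.inl ⟨ht'.1, h2.le⟩)
      by_cases h3 : 2 * T - L < t
      · exact Or.inr (Or.inr ⟨h3.le, ht'.2⟩)
      push Not at h2 h3
      refine Or.inl ?_
      rw [hS']
      exact ⟨ht, h2, h3⟩
    have hfin : volume (S' ∪ (Set.Icc T (T + L) ∪ Set.Icc (2 * T - L) (2 * T))) ≠ ⊤ := by
      have : S' ∪ (Set.Icc T (T + L) ∪ Set.Icc (2 * T - L) (2 * T)) ⊆ Set.Icc (T - L) (2 * T + L) := by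
        rintro t (ht | ht | ht)
        · have := hSI' ht
          exact ⟨by linarith [this.1], by linarith [this.2]⟩
        · exact ⟨by linarith [ht.1], by linarith [ht.2]⟩
        · exact ⟨by linarith [ht.1], by linarith [ht.2]⟩
      exact ne_top_of_le_ne_top isCompact_Icc.measure_ne_top (measure_mono this)
    refine (measureReal_mono hsub hfin).trans ?_
    refine (measureReal_union_le _ _).trans ?_
    have h4 := measureReal_union_le (μ := volume) (Set.Icc T (T + L)) (Set.Icc (2 * T - L) (2 * T))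
    rw [Real.volume_real_Icc_of_le (by linarith), Real.volume_real_Icc_of_le (by linarith)] at h4
    linarith
  have hv2 : volume.real S' ≤ volume.real S := measureReal_mono hSS hSf
  have hav : a * volume.real S ≤ a * volume.real S' + 4 * L := by
    have e : a * volume.real S - a * volume.real S' = a * (volume.real S - volume.real S') := by ring
    have : a * (volume.real S - volume.real S') ≤ 2 * (volume.real S - volume.real S') :=
      mul_le_mul_of_nonneg_right ha2 (by linarith)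
    linarith
  -- the counts
  have hSf' : volume S' ≠ ⊤ := ne_top_of_le_ne_top hSf (measure_mono hSS)
  have hnear := near_int (d := δ / L) (r := r) (a := T) (b := 2 * T) (by linarith) hSm hSI
  have hiso : IntegrableOn (fun t : ℝ => (((isoS U1 U2 (δ / L)).filter (fun s => |s.im - t| ≤ r)).card : ℝ)) S' :=
    (count_int (isoS U1 U2 (δ / L)) S' hSm' hSf' (r := r) hr0.le).1
  have hc1 : ∫ t in S', (((isoS U1 U2 (δ / L)).filter (fun s => |s.im - t| ≤ r)).card : ℝ) ≤
      ∫ t in S', ((SimpleNear (δ / L) r t).ncard : ℝ) := by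
    refine setIntegral_mono_on hiso (hnear.mono_set hSS) hSm' fun t ht => ?_
    have := hSI' ht
    refine card_le_near (T := T) (by linarith) ?_ (by linarith [this.1]) (by linarith [this.2])
    rw [div_le_one hL0]
    linarith
  have hc2 : ∫ t in S', ((SimpleNear (δ / L) r t).ncard : ℝ) ≤ ∫ t in S, ((SimpleNear (δ / L) r t).ncard : ℝ) :=
    setIntegral_mono_set hnear (Filter.Eventually.of_forall fun t => by positivity) hSS.eventuallyLE
  have hG2 : 0 ≤ 2 * G := by linarith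
  have h5 : (a * volume.real S - (b + ε) * T) * (2 * G) ≤
      (a * volume.real S' - T * (b + 60 * g)) * (2 * G) := by
    refine mul_le_mul_of_nonneg_right ?_ hG2
    have h6 : T * (60 * g) ≤ T * (ε / 2) := mul_le_mul_of_nonneg_left hg2 hT0'.le
    linarith
  have h7 : (a * volume.real S' - T * (b + 60 * g)) * (2 * G) =
      volume.real S' * a * (2 * G) - T * (b + 60 * g) * (2 * G) := by ring
  rw [h7] at h5
  linarith

end Pool.Agent.H510.EW
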