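import Pool.Agent.H510.EW.SetsC

/-!
# Simple zeros near an arbitrary set of heights: everything together
-/

set_option autoImplicit false

namespace Pool.Agent.H510.EW

open Filter Topology MeasureTheory Complex H370 Pool.Agent.Y745.SW

lemma solve_few {s θ a b x : ℝ} (h : a * s - b ≤ θ * s) (h1 : θ < a) (h2 : b ≤ x * (a - θ)) : s ≤ x := by
  have h3 : s * (a - θ) ≤ x * (a - θ) := by linarith
  exact le_of_mul_le_mul_right h3 (by linarith)

/-- everything together -/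
theorem together : ∃ d G₀ : ℝ, 0 < d ∧ 0 < G₀ ∧ ∀ G : ℝ, G₀ ≤ G → ∃ T₀ : ℝ, ∀ T : ℝ, T₀ ≤ T →
    (∀ t : ℝ, T / 2 ≤ t → (SimpleNear (d / Real.log T) (2 * (G * (2 * Real.pi / Real.log T))) t).Finite) ∧
    (∀ S : Set ℝ, MeasurableSet S → S ⊆ Set.Icc T (2 * T) →
      IntegrableOn (fun t : ℝ => ((SimpleNear (d / Real.log T) (G * (2 * Real.pi / Real.log T)) t).ncard : ℝ)) S ∧
      Pl (volume.real S / T) * T * (2 * G) ≤
        ∫ t in S, ((SimpleNear (d / Real.log T) (G * (2 * Real.pi / Real.log T)) t).ncard : ℝ) ∧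
      {γ : ℝ | ∃ t ∈ S, γ ∈ SimpleNear (d / Real.log T) (G * (2 * Real.pi / Real.log T)) t}.Finite ∧
      Pl (volume.real S / T) * (T / (2 * Real.pi) * Real.log T) ≤
        (({γ : ℝ | ∃ t ∈ S, γ ∈ SimpleNear (d / Real.log T) (G * (2 * Real.pi / Real.log T)) t}.ncard : ℕ) : ℝ)) ∧
    (∀ θ : ℝ, Pl (volume.real {t : ℝ | t ∈ Set.Icc T (2 * T) ∧
          ((SimpleNear (d / Real.log T) (G * (2 * Real.pi / Real.log T)) t).ncard : ℝ) < θ * (2 * G)} / T) ≤
        θ * (volume.real {t : ℝ | t ∈ Set.Icc T (2 * T) ∧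
          ((SimpleNear (d / Real.log T) (G * (2 * Real.pi / Real.log T)) t).ncard : ℝ) < θ * (2 * G)} / T)) ∧
    (∀ (m : ℕ) (a : Fin m → ℝ), (∀ i, |a i| ≤ T / 20000) → (1 - 0.0624 * m) * T ≤
      volume.real {t : ℝ | t ∈ Set.Icc T (2 * T) ∧ ∀ i, 1 / 50000 * (2 * G) ≤
        ((SimpleNear (d / Real.log T) (G * (2 * Real.pi / Real.log T)) (t + a i)).ncard : ℝ)}) ∧
    (∀ a : Fin 15 → ℝ, (∀ i, |a i| ≤ T / 20000) → 0.0008 / G * (T / (2 * Real.pi) * Real.log T) ≤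
      (({γ : ℝ | γ ∈ SimpleNear (d / Real.log T) (T / 2 + 1) (3 * T / 2) ∧ ∀ i, 1 / 50000 * (2 * G) ≤
        ((SimpleNear (d / Real.log T) (2 * (G * (2 * Real.pi / Real.log T))) (γ + a i)).ncard : ℝ)}.ncard : ℕ) : ℝ)) := by
  obtain ⟨d, G₀, hd, hG₀, h⟩ := sets5
  refine ⟨d, G₀, hd, hG₀, fun G hG => ?_⟩
  have hG0 : 0 < G := hG₀.trans_le hG
  have hlog := Real.tendsto_log_atTop
  obtain ⟨T₀, hT₀⟩ := eventually_atTop.1 ((h G hG).and ((eventually_ge_atTop 100).and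
    ((hlog.eventually_ge_atTop 1).and (hlog.eventually_ge_atTop (G * (2 * Real.pi))))))
  refine ⟨T₀, fun T hT => ?_⟩
  obtain ⟨hA, hT1, hL, hLG⟩ := hT₀ T hT
  obtain ⟨L, hLd⟩ : ∃ L : ℝ, L = Real.log T := ⟨_, rfl⟩
  rw [← hLd] at hA hL hLG ⊢
  have hL0 : 0 < L := by linarith
  have hT0 : 0 < T := by linarith
  obtain ⟨r, hr⟩ : ∃ r : ℝ, r = G * (2 * Real.pi / L) := ⟨_, rfl⟩
  have hr0 : 0 < r := by rw [hr]; positivity
  have hr1 : r ≤ 1 := by
    rw [hr, ← mul_div_assoc, div_le_one hL0]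
    exact hLG
  rw [← hr] at hA ⊢
  have hAS : AllSets (d / L) r G T := hA
  have hr2 : 1 < T - r := by linarith
  have hfew := fun θ => few hAS hG0 hT0 hr2 θ
  have hB : volume.real {t : ℝ | t ∈ Set.Icc T (2 * T) ∧ ((SimpleNear (d / L) r t).ncard : ℝ) < 1 / 50000 * (2 * G)} ≤
      0.0623 * T := by
    have h1 := hfew (1 / 50000)
    have h2 := (le_max_right _ _).trans h1
    have h3 := solve_few (x := 0.0623) h2 (by norm_num) (by norm_num)
    rwa [div_le_iff₀ hT0] at h3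
  refine ⟨fun t ht => SimpleNear_finite (by linarith), fun S hS hSI => ?_, hfew, fun m a ha => shifts hT0 hB a ha,
    fun a ha => ?_⟩
  · have e : {γ : ℝ | ∃ t ∈ S, γ ∈ SimpleNear (d / L) r t} =
        {γ : ℝ | γ ∈ SimpleUp (d / L) (2 * T + r) ∧ ∃ t ∈ S, |γ - t| ≤ r} := by
      ext γ
      constructor
      · rintro ⟨t, ht, h1, h2⟩
        have h3 := hSI ht
        have h4 := abs_le.1 h1
        exact ⟨⟨by linarith [h3.1, h4.1], by linarith [h3.2, h4.2], h2⟩, t, ht, h1⟩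
      · rintro ⟨⟨-, -, h2⟩, t, ht, h1⟩
        exact ⟨t, ht, h1, h2⟩
    refine ⟨near_int (by linarith) hS hSI, hAS S hS hSI, ?_, ?_⟩
    · rw [e]
      exact (SimpleUp_finite _ _).subset fun γ hγ => hγ.1
    · rw [e]
      have h1 := ncard_simpleUp hAS hr0 hr2 hS hSI
      rw [← div_le_iff₀ (by positivity)] at h1
      refine le_trans (le_of_eq ?_) h1
      rw [hr]
      field_simp
  · have h1 := patterns (d := d / L) (r := r) (y := 1 / 50000 * (2 * G)) hT0 hr0 (by positivity) (by linarith) hB a ha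
    rw [← div_le_iff₀ (by positivity)] at h1
    refine (le_of_eq ?_).trans (h1.trans ?_)
    · rw [hr]
      field_simp
      norm_num
    · have hsub : {γ : ℝ | γ ∈ SimpleUp (d / L) (2 * T + r) ∧ T - r ≤ γ ∧
          ∀ i, 1 / 50000 * (2 * G) ≤ ((SimpleNear (d / L) (2 * r) (γ + a i)).ncard : ℝ)} ⊆
          {γ : ℝ | γ ∈ SimpleNear (d / L) (T / 2 + 1) (3 * T / 2) ∧
          ∀ i, 1 / 50000 * (2 * G) ≤ ((SimpleNear (d / L) (2 * r) (γ + a i)).ncard : ℝ)} := by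
        rintro γ ⟨⟨h2, h3, h4⟩, h5, h6⟩
        refine ⟨⟨?_, h4⟩, h6⟩
        rw [abs_le]
        constructor <;> linarith
      exact_mod_cast Set.ncard_le_ncard hsub ((SimpleNear_finite (d := d / L) (r := T / 2 + 1) (t := 3 * T / 2)
        (by linarith)).subset fun γ hγ => hγ.1)

end Pool.Agent.H510.EW
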