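import Pool.Agent.H510.EW.SetsR

/-!
# Simple zeros near an arbitrary set of heights: isolation from the nontrivial zeros
-/

set_option autoImplicit false

namespace Pool.Agent.H510.EW

open Filter Topology MeasureTheory Complex H370 Pool.Agent.Y745.SW

/-- `1/2 + iγ` is a simple zero of zeta at distance at least `d` from all other nontrivial zeros -/
def IsSimple (d γ : ℝ) : Prop :=
  riemannZeta (1 / 2 + γ * I) = 0 ∧ deriv riemannZeta (1 / 2 + γ * I) ≠ 0 ∧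
    ∀ ρ : ℂ, riemannZeta ρ = 0 → 0 < ρ.re → ρ.re < 1 → ρ ≠ 1 / 2 + γ * I → d ≤ ‖ρ - (1 / 2 + γ * I)‖

/-- the number of these zeros with `|γ - t| ≤ r` -/
noncomputable def count (d r t : ℝ) : ℕ := {γ : ℝ | |γ - t| ≤ r ∧ IsSimple d γ}.ncard

lemma isSimple_iff {d γ : ℝ} (hγ : 2 < γ) (hd : d ≤ 1) : IsSimple d γ ↔
    (riemannZeta (1 / 2 + γ * I) = 0 ∧ deriv riemannZeta (1 / 2 + γ * I) ≠ 0 ∧
    ∀ ρ : ℂ, riemannZeta ρ = 0 → ρ ≠ 1 / 2 + γ * I → d ≤ ‖ρ - (1 / 2 + γ * I)‖) := by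
  unfold IsSimple
  constructor
  · rintro ⟨h1, h2, h3⟩
    refine ⟨h1, h2, fun ρ h4 h5 => ?_⟩
    by_cases h6 : 1 ≤ ρ.im
    · refine h3 ρ h4 ?_ ?_ h5
      · by_contra hc
        exact good_zeta.nzl ρ (not_lt.1 hc) h6 h4
      · by_contra hc
        exact good_zeta.nzr ρ (not_lt.1 hc) h6 h4
    · push Not at h6
      have h7 := Complex.abs_im_le_norm (ρ - (1 / 2 + γ * I))
      have h8 : (ρ - (1 / 2 + γ * I)).im = ρ.im - γ := by simp
      rw [h8, abs_sub_comm] at h7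
      have h9 := le_abs_self (γ - ρ.im)
      linarith
  · rintro ⟨h1, h2, h3⟩
    exact ⟨h1, h2, fun ρ h4 _ _ h5 => h3 ρ h4 h5⟩

lemma near_eq {d r t : ℝ} (ht : 2 < t - r) (hd : d ≤ 1) :
    SimpleNear d r t = {γ : ℝ | |γ - t| ≤ r ∧ IsSimple d γ} := by
  ext γ
  constructor
  · rintro ⟨h1, h2⟩
    have := abs_le.1 h1
    exact ⟨h1, (isSimple_iff (by linarith [this.1]) hd).2 h2⟩
  · rintro ⟨h1, h2⟩
    have := abs_le.1 h1
    exact ⟨h1, (isSimple_iff (by linarith [this.1]) hd).1 h2⟩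

/-- everything together, isolation from the nontrivial zeros -/
theorem togetherW : ∃ d G₀ : ℝ, 0 < d ∧ 0 < G₀ ∧ ∀ G : ℝ, G₀ ≤ G → ∃ T₀ : ℝ, ∀ T : ℝ, T₀ ≤ T →
    (∀ t : ℝ, T / 2 ≤ t →
      {γ : ℝ | |γ - t| ≤ 2 * (G * (2 * Real.pi / Real.log T)) ∧ IsSimple (d / Real.log T) γ}.Finite) ∧
    (∀ S : Set ℝ, MeasurableSet S → S ⊆ Set.Icc T (2 * T) →
      IntegrableOn (fun t : ℝ => (count (d / Real.log T) (G * (2 * Real.pi / Real.log T)) t : ℝ)) S ∧
      Pl (volume.real S / T) * T * (2 * G) ≤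
        ∫ t in S, (count (d / Real.log T) (G * (2 * Real.pi / Real.log T)) t : ℝ) ∧
      {γ : ℝ | IsSimple (d / Real.log T) γ ∧ ∃ t ∈ S, |γ - t| ≤ G * (2 * Real.pi / Real.log T)}.Finite ∧
      Pl (volume.real S / T) * (T / (2 * Real.pi) * Real.log T) ≤
        (({γ : ℝ | IsSimple (d / Real.log T) γ ∧ ∃ t ∈ S, |γ - t| ≤ G * (2 * Real.pi / Real.log T)}.ncard : ℕ) : ℝ)) ∧
    (∀ θ s : ℝ, volume.real {t : ℝ | t ∈ Set.Icc T (2 * T) ∧
          (count (d / Real.log T) (G * (2 * Real.pi / Real.log T)) t : ℝ) < θ * (2 * G)} = s * T → Pl s ≤ θ * s) ∧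
    (∀ (m : ℕ) (a : Fin m → ℝ), (∀ i, |a i| ≤ T / 20000) → (1 - 0.0624 * m) * T ≤
      volume.real {t : ℝ | t ∈ Set.Icc T (2 * T) ∧ ∀ i, 1 / 50000 * (2 * G) ≤
        (count (d / Real.log T) (G * (2 * Real.pi / Real.log T)) (t + a i) : ℝ)}) ∧
    (∀ a : Fin 15 → ℝ, (∀ i, |a i| ≤ T / 20000) → 0.0008 / G * (T / (2 * Real.pi) * Real.log T) ≤
      (({γ : ℝ | IsSimple (d / Real.log T) γ ∧ T - 1 ≤ γ ∧ γ ≤ 2 * T + 1 ∧ ∀ i, 1 / 50000 * (2 * G) ≤
        (count (d / Real.log T) (2 * (G * (2 * Real.pi / Real.log T))) (γ + a i) : ℝ)}.ncard : ℕ) : ℝ)) := by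
  obtain ⟨d, G₀, hd, hG₀, h⟩ := together
  refine ⟨d, G₀, hd, hG₀, fun G hG => ?_⟩
  have hG0 : 0 < G := hG₀.trans_le hG
  obtain ⟨T₀, hT₀⟩ := h G hG
  have hlog := Real.tendsto_log_atTop
  obtain ⟨T₁, hT₁⟩ := eventually_atTop.1 ((eventually_ge_atTop (100:ℝ)).and
    ((hlog.eventually_ge_atTop (max 1 d)).and (hlog.eventually_ge_atTop (G * (2 * Real.pi)))))
  refine ⟨max T₀ T₁, fun T hT => ?_⟩
  obtain ⟨k1, k2, k3, k4, k5⟩ := hT₀ T ((le_max_left _ _).trans hT)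
  obtain ⟨hT1, hL', hLG⟩ := hT₁ T ((le_max_right _ _).trans hT)
  obtain ⟨L, hLd⟩ : ∃ L : ℝ, L = Real.log T := ⟨_, rfl⟩
  rw [← hLd] at k1 k2 k3 k4 k5 hL' hLG ⊢
  have hL : 1 ≤ L := (le_max_left _ _).trans hL'
  have hLd' : d ≤ L := (le_max_right _ _).trans hL'
  have hL0 : 0 < L := by linarith
  have hT0 : 0 < T := by linarith
  have hd1 : d / L ≤ 1 := by rw [div_le_one hL0]; exact hLd'
  obtain ⟨r, hr⟩ : ∃ r : ℝ, r = G * (2 * Real.pi / L) := ⟨_, rfl⟩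
  have hr0 : 0 < r := by rw [hr]; positivity
  have hr1 : r ≤ 1 := by
    rw [hr, ← mul_div_assoc, div_le_one hL0]
    exact hLG
  rw [← hr] at k1 k2 k3 k4 k5 ⊢
  have hc : ∀ ρ t : ℝ, ρ ≤ 2 → T / 2 ≤ t → (SimpleNear (d / L) ρ t).ncard = count (d / L) ρ t := by
    intro ρ t h1 h2
    rw [near_eq (by linarith) hd1]
    rfl
  refine ⟨fun t ht => ?_, fun S hS hSI => ?_, fun θ s hs => ?_, fun m a ha => ?_, fun a ha => ?_⟩
  · rw [← near_eq (by linarith) hd1]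
    exact k1 t ht
  · obtain ⟨a1, a2, a3, a4⟩ := k2 S hS hSI
    have e : {γ : ℝ | ∃ t ∈ S, γ ∈ SimpleNear (d / L) r t} =
        {γ : ℝ | IsSimple (d / L) γ ∧ ∃ t ∈ S, |γ - t| ≤ r} := by
      ext γ
      constructor
      · rintro ⟨t, ht, h1, h2⟩
        have h3 := hSI ht
        have h4 := abs_le.1 h1
        exact ⟨(isSimple_iff (by linarith [h3.1, h4.1]) hd1).2 h2, t, ht, h1⟩
      · rintro ⟨h2, t, ht, h1⟩
        have h3 := hSI ht
        have h4 := abs_le.1 h1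
        exact ⟨t, ht, h1, (isSimple_iff (by linarith [h3.1, h4.1]) hd1).1 h2⟩
    rw [e] at a3 a4
    have hcS : ∀ t ∈ S, ((SimpleNear (d / L) r t).ncard : ℝ) = (count (d / L) r t : ℝ) := fun t ht => by
      rw [hc r t (by linarith) (by linarith [(hSI ht).1])]
    refine ⟨a1.congr_fun hcS hS, ?_, a3, a4⟩
    rw [← setIntegral_congr_fun hS hcS]
    exact a2
  · have e : {t : ℝ | t ∈ Set.Icc T (2 * T) ∧ (count (d / L) r t : ℝ) < θ * (2 * G)} =
        {t : ℝ | t ∈ Set.Icc T (2 * T) ∧ ((SimpleNear (d / L) r t).ncard : ℝ) < θ * (2 * G)} := by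
      ext t
      constructor
      · rintro ⟨h1, h2⟩
        refine ⟨h1, ?_⟩
        rw [hc r t (by linarith) (by linarith [h1.1])]
        exact h2
      · rintro ⟨h1, h2⟩
        refine ⟨h1, ?_⟩
        rw [← hc r t (by linarith) (by linarith [h1.1])]
        exact h2
    have h1 := k3 θ
    rw [← e, hs, mul_div_assoc, div_self hT0.ne', mul_one] at h1
    exact h1
  · refine (k4 m a ha).trans (le_of_eq ?_)
    congr 1
    ext t
    constructor
    · rintro ⟨h1, h2⟩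
      refine ⟨h1, fun i => ?_⟩
      have := abs_le.1 (ha i)
      rw [← hc r _ (by linarith) (by linarith [h1.1, this.1])]
      exact h2 i
    · rintro ⟨h1, h2⟩
      refine ⟨h1, fun i => ?_⟩
      have := abs_le.1 (ha i)
      rw [hc r _ (by linarith) (by linarith [h1.1, this.1])]
      exact h2 i
  · refine (k5 a ha).trans (le_of_eq ?_)
    congr 2
    ext γ
    constructor
    · rintro ⟨⟨h1, h2⟩, h3⟩
      have h4 := abs_le.1 h1
      refine ⟨(isSimple_iff (by linarith [h4.1]) hd1).2 h2, by linarith [h4.1], by linarith [h4.2], fun i => ?_⟩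
      have := abs_le.1 (ha i)
      rw [← hc (2 * r) _ (by linarith) (by linarith [this.1, h4.1])]
      exact h3 i
    · rintro ⟨h1, h2, h3, h4⟩
      refine ⟨⟨?_, (isSimple_iff (by linarith) hd1).1 h1⟩, fun i => ?_⟩
      · rw [abs_le]; constructor <;> linarith
      · have := abs_le.1 (ha i)
        rw [hc (2 * r) _ (by linarith) (by linarith [this.1])]
        exact h4 i

end Pool.Agent.H510.EW
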